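import Pool.Agent.Lib.P4de4a9.SubstLemmas

/-!
# Every ET0L language is generated by a 2-restricted ET0L system

Checker letters. Every active letter `l` has a partner, the checker `K l`. The only tables that
touch `C l` or `K l` either rewrite `C l` and send `K l` to the dead letter `F`, or erase `K l` and
send `C l` to `F`. A word that contains both `C l` and `K l` is therefore dead for ever, and
emitting the checker `K l` amounts to testing that `C l` is absent. One rule may emit as many
checkers as it likes.
-/

namespace Pool.Agent.P4de4a9

open Classical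

namespace Checker

/-- Modes of the simulation: applying a table, removing primes, final stage. -/
inductive Mode (H : Type)
  | app (t : H)
  | unp
  | fin

/-- The active letters of the simulating system. -/
inductive Core (H S : Type)
  | Z (q : Mode H)
  | X (c : S)
  | Y (c : S)

/-- Letters of the simulating system. -/
inductive Lt (H S T : Type)
  | C (l : Core H S)
  | K (l : Core H S)
  | A (a : T)
  | F

/-- The rules of the simulating system. -/
inductive Rule (H S T : Type)
  | start (t : H)
  | stop (t : H)
  | last
  | erase
  | rew (t : H) (c : S)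
  | unp (c : S)
  | trm (a : T)

theorem finite_mode (H : Type) [Finite H] : Finite (Mode H) :=
  Finite.of_injective (fun m : Mode H => match m with
    | .app t => (some (some t) : Option (Option H))
    | .unp => none
    | .fin => some none) (by
      intro a b h
      cases a <;> cases b <;> simp_all)

theorem finite_core (H S : Type) [Finite H] [Finite S] : Finite (Core H S) :=
  have := finite_mode H
  Finite.of_injective (fun m : Core H S => match m with
    | .Z q => (Sum.inl q : Mode H ⊕ (S ⊕ S))
    | .X c => Sum.inr (Sum.inl c)
    | .Y c => Sum.inr (Sum.inr c)) (by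
      intro a b h
      cases a <;> cases b <;> simp_all)

theorem finite_lt (H S T : Type) [Finite H] [Finite S] [Finite T] : Finite (Lt H S T) :=
  have := finite_core H S
  Finite.of_injective (fun m : Lt H S T => match m with
    | .C l => (Sum.inl (Sum.inl l) : (Core H S ⊕ Core H S) ⊕ (T ⊕ Unit))
    | .K l => Sum.inl (Sum.inr l)
    | .A a => Sum.inr (Sum.inl a)
    | .F => Sum.inr (Sum.inr ())) (by
      intro a b h
      cases a <;> cases b <;> simp_all)

theorem finite_rule (H S T : Type) [Finite H] [Finite S] [Finite T] : Finite (Rule H S T) :=
  Finite.of_injective (fun m : Rule H S T => match m with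
    | .start t => (Sum.inl (Sum.inl t) : (H ⊕ H) ⊕ (Bool ⊕ ((H × S) ⊕ (S ⊕ T))))
    | .stop t => Sum.inl (Sum.inr t)
    | .last => Sum.inr (Sum.inl true)
    | .erase => Sum.inr (Sum.inl false)
    | .rew t c => Sum.inr (Sum.inr (Sum.inl (t, c)))
    | .unp c => Sum.inr (Sum.inr (Sum.inr (Sum.inl c)))
    | .trm a => Sum.inr (Sum.inr (Sum.inr (Sum.inr a)))) (by
      intro a b h
      cases a <;> cases b <;> simp_all)

section

variable {H S T : Type} (L : List S) (Q : List (Mode H)) (tab : H → S → Set (List S))
  (term : T ↪ S)

/-- The letter rewritten by a rule. -/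
def core : Rule H S T → Core H S
  | .start _ => .Z .unp
  | .stop t => .Z (.app t)
  | .last => .Z .unp
  | .erase => .Z .fin
  | .rew _ c => .X c
  | .unp c => .Y c
  | .trm a => .X (term a)

/-- The replacement words of a rule, checkers left out. -/
def main : Rule H S T → Set (List (Lt H S T))
  | .start t => {[.C (.Z (.app t))]}
  | .stop _ => {[.C (.Z .unp)]}
  | .last => {[.C (.Z .fin)]}
  | .erase => {[]}
  | .rew t c => (fun v => v.map fun d => .C (.Y d)) '' tab t c
  | .unp c => {[.C (.X c)]}
  | .trm a => {[.A a]}

/-- The checkers emitted by a rule. -/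
noncomputable def chk : Rule H S T → List (Core H S)
  | .start _ => L.map .Y
  | .stop _ => L.map .X
  | .last => []
  | .erase => L.map .X ++ L.map .Y
  | .rew t _ => (Q.filter fun q => decide (q ≠ .app t)).map .Z
  | .unp _ => (Q.filter fun q => decide (q ≠ .unp)).map .Z
  | .trm _ => (Q.filter fun q => decide (q ≠ .fin)).map .Z

/-- The table of a rule. -/
noncomputable def fire (r : Rule H S T) (x : Lt H S T) : Set (List (Lt H S T)) :=
  if x = .C (core term r) then (fun w => w ++ (chk L Q r).map .K) '' main tab r
  else if x = .K (core term r) then {[.F]} else {[x]}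

/-- The table erasing a checker. -/
noncomputable def eat (l : Core H S) (x : Lt H S T) : Set (List (Lt H S T)) :=
  if x = .K l then {[]} else if x = .C l then {[.F]} else {[x]}

/-- All tables of the simulating system. -/
def tabs : Set (Lt H S T → Set (List (Lt H S T))) :=
  Set.range (fire L Q tab term) ∪ Set.range eat

theorem tabs_finite [Finite H] [Finite S] [Finite T] :
    (tabs L Q tab term : Set (Lt H S T → _)).Finite := by
  have := finite_core H S
  have := finite_rule H S T
  exact (Set.finite_range _).union (Set.finite_range _)

theorem restricted [Finite H] [Finite S] [Finite T]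
    (h : Lt H S T → Set (List (Lt H S T))) (hh : h ∈ tabs L Q tab term) :
    {c | h c ≠ {[c]}}.ncard ≤ 2 := by
  have : Finite (Lt H S T) := finite_lt _ _ _
  have key : ∀ a b : Lt H S T, {x | h x ≠ {[x]}} ⊆ {a, b} →
      {c | h c ≠ {[c]}}.ncard ≤ 2 := by
    intro a b hs
    refine (Set.ncard_le_ncard hs (Set.toFinite _)).trans ?_
    have h1 := Set.ncard_insert_le a ({b} : Set (Lt H S T))
    rwa [Set.ncard_singleton] at h1
  rcases hh with ⟨r, rfl⟩ | ⟨l, rfl⟩
  · apply key (.C (core term r)) (.K (core term r))
    intro x hx
    by_contra hc
    simp only [Set.mem_insert_iff, Set.mem_singleton_iff, not_or] at hc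
    apply hx
    simp only [fire, if_neg hc.1, if_neg hc.2]
  · apply key (.C l) (.K l)
    intro x hx
    by_contra hc
    simp only [Set.mem_insert_iff, Set.mem_singleton_iff, not_or] at hc
    apply hx
    simp only [eat, if_neg hc.1, if_neg hc.2]

theorem main_finite (htab : ∀ t c, (tab t c).Finite) (r : Rule H S T) :
    (main tab r).Finite := by
  cases r with
  | rew t c => exact (htab t c).image _
  | _ => exact Set.finite_singleton _

theorem main_nonempty (htab : ∀ t c, (tab t c).Nonempty) (r : Rule H S T) :
    (main tab r).Nonempty := by
  cases r with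
  | rew t c => exact (htab t c).image _
  | _ => exact Set.singleton_nonempty _

theorem image_finite (htab : ∀ t c, (tab t c).Finite)
    (h : Lt H S T → Set (List (Lt H S T))) (hh : h ∈ tabs L Q tab term)
    (c : Lt H S T) : (h c).Finite := by
  rcases hh with ⟨r, rfl⟩ | ⟨l, rfl⟩
  · simp only [fire]
    split_ifs
    · exact (main_finite tab htab r).image _
    · exact Set.finite_singleton _
    · exact Set.finite_singleton _
  · simp only [eat]
    split_ifs <;> exact Set.finite_singleton _

theorem image_nonempty (htab : ∀ t c, (tab t c).Nonempty)
    (h : Lt H S T → Set (List (Lt H S T))) (hh : h ∈ tabs L Q tab term)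
    (c : Lt H S T) : (h c).Nonempty := by
  rcases hh with ⟨r, rfl⟩ | ⟨l, rfl⟩
  · simp only [fire]
    split_ifs
    · exact (main_nonempty tab htab r).image _
    · exact Set.singleton_nonempty _
    · exact Set.singleton_nonempty _
  · simp only [eat]
    split_ifs <;> exact Set.singleton_nonempty _

/-- Step relation of the simulating system. -/
def Stp (z z' : List (Lt H S T)) : Prop := ∃ h ∈ tabs L Q tab term, Subst h z z'

/-- Is the letter not a checker? -/
def nk : Lt H S T → Bool
  | .K _ => false
  | _ => true

/-- Leave out all checkers. -/
def strip (z : List (Lt H S T)) : List (Lt H S T) := z.filter nk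

/-- Dead words. -/
def Dead (z : List (Lt H S T)) : Prop := .F ∈ z ∨ ∃ l, .C l ∈ z ∧ .K l ∈ z

theorem mem_strip {x : Lt H S T} {z : List (Lt H S T)} : x ∈ strip z ↔ x ∈ z ∧ nk x = true := by
  simp [strip]

theorem strip_append (z z' : List (Lt H S T)) : strip (z ++ z') = strip z ++ strip z' := by
  simp [strip]

theorem strip_K (D : List (Core H S)) : strip (D.map (.K : Core H S → Lt H S T)) = [] := by
  simp [strip, nk]

theorem strip_main {r : Rule H S T} {w : List (Lt H S T)} (hw : w ∈ main tab r) :
    strip w = w := by
  rw [strip, List.filter_eq_self]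
  intro x hx
  cases r <;> simp only [main, Set.mem_singleton_iff, Set.mem_image] at hw
  case rew t c =>
    obtain ⟨v, -, rfl⟩ := hw
    obtain ⟨d, -, rfl⟩ := List.mem_map.1 hx
    rfl
  all_goals
    subst hw
    first
      | (simp only [List.mem_singleton] at hx; subst hx; rfl)
      | simp at hx

theorem dead_step {z z' : List (Lt H S T)} (h : Stp L Q tab term z z') (hd : Dead z) :
    Dead z' := by
  obtain ⟨g, hg, hs⟩ := h
  have hF : g .F = {[.F]} := by
    rcases hg with ⟨r, rfl⟩ | ⟨l, rfl⟩
    · simp [fire]
    · simp [eat]
  rcases hd with hd | ⟨l, h1, h2⟩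
  · left
    refine Subst.mem_of hd ?_ hs
    intro w hw
    rw [hF] at hw
    simp only [Set.mem_singleton_iff] at hw
    simp [hw]
  · rcases hg with ⟨r, rfl⟩ | ⟨l', rfl⟩
    · by_cases hl : l = core term r
      · left
        refine Subst.mem_of h2 ?_ hs
        intro w hw
        have : w = [.F] := by simpa [fire, hl] using hw
        simp [this]
      · right
        refine ⟨l, Subst.mem_of h1 ?_ hs, Subst.mem_of h2 ?_ hs⟩
        · intro w hw
          simp only [fire, Lt.C.injEq, hl, if_false, reduceCtorEq, Set.mem_singleton_iff] at hw
          simp [hw]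
        · intro w hw
          simp only [fire, Lt.K.injEq, hl, if_false, reduceCtorEq, Set.mem_singleton_iff] at hw
          simp [hw]
    · by_cases hl : l = l'
      · left
        refine Subst.mem_of h1 ?_ hs
        intro w hw
        have : w = [.F] := by simpa [eat, hl] using hw
        simp [this]
      · right
        refine ⟨l, Subst.mem_of h1 ?_ hs, Subst.mem_of h2 ?_ hs⟩
        · intro w hw
          simp only [eat, Lt.C.injEq, hl, if_false, reduceCtorEq, Set.mem_singleton_iff] at hw
          simp [hw]
        · intro w hw
          simp only [eat, Lt.K.injEq, hl, if_false, reduceCtorEq, Set.mem_singleton_iff] at hw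
          simp [hw]

/-- The effect of a rule on stripped words. -/
noncomputable def act (r : Rule H S T) (x : Lt H S T) : Set (List (Lt H S T)) :=
  if x = .C (core term r) then main tab r else {[x]}

/-- A step of a rule seen on stripped words. -/
theorem strip_fire {r : Rule H S T} {z z' : List (Lt H S T)}
    (hs : Subst (fire L Q tab term r) z z') (hF : .F ∉ z') :
    Subst (act tab term r) (strip z) (strip z') ∧
      (.C (core term r) ∈ z → ∀ d ∈ chk L Q r, .K d ∈ z') := by
  constructor
  · induction z generalizing z' with
    | nil =>
      rw [Subst.nil_iff] at hs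
      subst hs
      exact Subst.nil_iff.2 rfl
    | cons x z ih =>
      rw [Subst.cons_iff] at hs
      obtain ⟨w, y, hw, hy, rfl⟩ := hs
      have hF' : Lt.F ∉ y := fun h => hF (by simp [h])
      have hFw : Lt.F ∉ w := fun h => hF (by simp [h])
      have ih' := ih hy hF'
      rw [strip_append]
      by_cases h1 : x = .C (core term r)
      · subst h1
        simp only [fire, if_true] at hw
        obtain ⟨w', hw', rfl⟩ := hw
        have e1 : strip (Lt.C (core term r) :: z) = Lt.C (core term r) :: strip z :=
          List.filter_cons_of_pos rfl
        rw [e1, strip_append, strip_K, List.append_nil, strip_main tab hw', Subst.cons_iff]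
        exact ⟨w', _, by simpa [act] using hw', ih', rfl⟩
      · by_cases h2 : x = .K (core term r)
        · subst h2
          simp only [fire, reduceCtorEq, if_false, if_true, Set.mem_singleton_iff] at hw
          subst hw
          simp at hFw
        · simp only [fire, if_neg h1, if_neg h2, Set.mem_singleton_iff] at hw
          subst hw
          have e1 : strip (x :: z) = strip [x] ++ strip z := by
            rw [← strip_append]; rfl
          rw [e1]
          refine Subst.append ?_ ih'
          refine (Subst.id_iff ?_).2 rfl
          intro c hc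
          have hc' : c = x := by
            have := (mem_strip.1 hc).1
            simpa using this
          subst hc'
          simp [act, h1]
  · intro hc d hd
    refine Subst.mem_of hc ?_ hs
    intro w hw
    simp only [fire, if_true] at hw
    obtain ⟨w', -, rfl⟩ := hw
    simp [hd]

theorem strip_eat {l : Core H S} {z z' : List (Lt H S T)}
    (hs : Subst (eat l) z z') (hF : .F ∉ z') : strip z' = strip z := by
  induction z generalizing z' with
  | nil =>
    rw [Subst.nil_iff] at hs
    subst hs
    rfl
  | cons x z ih =>
    rw [Subst.cons_iff] at hs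
    obtain ⟨w, y, hw, hy, rfl⟩ := hs
    have hF' : Lt.F ∉ y := fun h => hF (by simp [h])
    have hFw : Lt.F ∉ w := fun h => hF (by simp [h])
    rw [strip_append, ih hy hF']
    by_cases h1 : x = .K l
    · subst h1
      simp only [eat, if_true, Set.mem_singleton_iff] at hw
      subst hw
      simp [strip, nk]
    · by_cases h2 : x = .C l
      · subst h2
        simp only [eat, reduceCtorEq, if_false, if_true, Set.mem_singleton_iff] at hw
        subst hw
        simp at hFw
      · simp only [eat, if_neg h1, if_neg h2, Set.mem_singleton_iff] at hw
        subst hw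
        rw [← strip_append]
        rfl

/-! ### The invariant -/

/-- Which words a letter may be represented by, in each mode. -/
def blk : Mode H → S → Set (List (Lt H S T))
  | .app t, c => {w | w = [.C (.X c)] ∨ ∃ v ∈ tab t c, w = v.map fun d => .C (.Y d)}
  | .unp, c => {w | w = [.C (.X c)] ∨ w = [.C (.Y c)]}
  | .fin, c => {w | w = [.C (.X c)] ∨ w = [.C (.Y c)] ∨ ∃ a, term a = c ∧ w = [.A a]}

/-- Words without control letters. -/
def Content (x : List (Lt H S T)) : Prop := ∀ q, .C (.Z q) ∉ x

theorem content_blk {q : Mode H} {c : S} {b : List (Lt H S T)} (hb : b ∈ blk tab term q c) :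
    Content b := by
  intro q' hq'
  cases q with
  | app t =>
    rcases hb with rfl | ⟨v, -, rfl⟩
    · simp at hq'
    · simp at hq'
  | unp => rcases hb with rfl | rfl <;> simp at hq'
  | fin =>
    rcases hb with rfl | rfl | ⟨a, -, rfl⟩ <;> simp at hq'

theorem content_subst {q : Mode H} {w : List S} {x : List (Lt H S T)}
    (h : Subst (blk tab term q) w x) : Content x := by
  intro q' hq'
  obtain ⟨c, -, b, hb, hlb⟩ := Subst.mem_inv hq' h
  exact content_blk tab term hb q' hlb

-- `R` stands for reachability in the simulated system.
variable (R : List S → Prop)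

/-- The invariant of a stripped word. -/
def Inv (p : List (Lt H S T)) : Prop :=
  (∃ q w x, R w ∧ p = .C (.Z q) :: x ∧ Subst (blk tab term q) w x) ∨
    ∃ u : List T, p = u.map .A ∧ R (u.map term)

theorem act_content {r : Rule H S T} {q : Mode H} (hr : core term r = .Z q)
    {x x' : List (Lt H S T)} (hx : Content x) (h : Subst (act tab term r) x x') : x' = x := by
  refine (Subst.id_iff ?_).1 h
  intro c hc
  have : c ≠ .C (core term r) := by
    rintro rfl
    rw [hr] at hc
    exact hx q hc
  simp [act, this]

theorem inv_step (hL : ∀ c, c ∈ L) (hQ : ∀ q, q ∈ Q)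
    (hR : ∀ w w' t, R w → Subst (tab t) w w' → R w') {z z' : List (Lt H S T)}
    (h : Stp L Q tab term z z') (hd : ¬ Dead z') (hz : Inv tab term R (strip z)) :
    Inv tab term R (strip z') := by
  obtain ⟨g, hg, hs⟩ := h
  have hF : Lt.F ∉ z' := fun h => hd (Or.inl h)
  have hCK : ∀ l, Lt.C l ∈ strip z' → Lt.K l ∈ z' → False := fun l h1 h2 =>
    hd (Or.inr ⟨l, (mem_strip.1 h1).1, h2⟩)
  rcases hg with ⟨r, rfl⟩ | ⟨l, rfl⟩
  swap
  · rwa [strip_eat hs hF]
  obtain ⟨hs', hchk⟩ := strip_fire L Q tab term hs hF
  by_cases hc : Lt.C (core term r) ∈ z
  swap
  · have : strip z' = strip z := by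
      refine (Subst.id_iff ?_).1 hs'
      intro c hc'
      have : c ≠ .C (core term r) := by
        rintro rfl
        exact hc (mem_strip.1 hc').1
      simp [act, this]
    rwa [this]
  have hchk' := hchk hc
  have hc' : Lt.C (core term r) ∈ strip z := mem_strip.2 ⟨hc, rfl⟩
  rcases hz with ⟨q, w, x, hw, hp, hx⟩ | ⟨u, hp, -⟩
  swap
  · rw [hp] at hc'
    simp at hc'
  rw [hp] at hs' hc'
  rw [Subst.cons_iff] at hs'
  obtain ⟨v, x', hv, hx', hzz⟩ := hs'
  have hcont := content_subst tab term hx
  rw [hzz]
  -- the control letter is unchanged by rules for content letters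
  have hctl : ∀ c, (core term r = .X c ∨ core term r = .Y c) → v = [.C (.Z q)] := by
    intro c hcr
    have : (Lt.C (Core.Z q) : Lt H S T) ≠ .C (core term r) := by
      rcases hcr with h | h <;> rw [h] <;> simp
    simpa [act, this] using hv
  cases r with
  | start t =>
    have hq : q = .unp := by
      rcases List.mem_cons.1 hc' with h | h
      · simpa [core] using h.symm
      · exact absurd h (hcont _)
    subst hq
    have hv' : v = [.C (.Z (.app t))] := by simpa [act, core, main] using hv
    have hxx : x' = x := act_content tab term (q := .unp) rfl hcont hx'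
    subst hv'
    rw [hxx] at hzz ⊢
    left
    refine ⟨.app t, w, x, hw, rfl, ?_⟩
    refine Subst.mono hx ?_
    intro c _ b hb hbx
    rcases hb with rfl | rfl
    · exact Or.inl rfl
    · exfalso
      refine hCK (.Y c) ?_ (hchk' (.Y c) ?_)
      · rw [hzz]
        simp only [List.cons_append, List.nil_append, List.mem_cons]
        right
        exact hbx _ (by simp)
      · simp [chk, hL]
  | stop t =>
    have hq : q = .app t := by
      rcases List.mem_cons.1 hc' with h | h
      · simpa [core] using h.symm
      · exact absurd h (hcont _)
    subst hq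
    have hv' : v = [.C (.Z .unp)] := by simpa [act, core, main] using hv
    have hxx : x' = x := act_content tab term (q := .app t) rfl hcont hx'
    subst hv'
    rw [hxx] at hzz ⊢
    have hx2 : Subst (fun c => (fun v => v.map fun d => (.C (.Y d) : Lt H S T)) '' tab t c) w x := by
      refine Subst.mono hx ?_
      intro c _ b hb hbx
      rcases hb with rfl | ⟨v, hv, rfl⟩
      · exfalso
        refine hCK (.X c) ?_ (hchk' (.X c) ?_)
        · rw [hzz]
          simp only [List.cons_append, List.nil_append, List.mem_cons]
          right
          exact hbx _ (by simp)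
        · simp [chk, hL]
      · exact ⟨v, hv, rfl⟩
    obtain ⟨w', hw', rfl⟩ : ∃ w', Subst (tab t) w w' ∧
        x = w'.map fun d => (.C (.Y d) : Lt H S T) := by
      clear hzz hchk hchk' hc hc' hs hx hp hcont hxx hx'
      clear hw
      induction w generalizing x with
      | nil =>
        rw [Subst.nil_iff] at hx2
        exact ⟨[], Subst.nil_iff.2 rfl, by simpa using hx2⟩
      | cons c w ih =>
        rw [Subst.cons_iff] at hx2
        obtain ⟨b, y, ⟨v, hv, rfl⟩, hy, rfl⟩ := hx2
        obtain ⟨w', hw', rfl⟩ := ih _ hy
        exact ⟨v ++ w', Subst.cons_iff.2 ⟨v, w', hv, hw', rfl⟩, by simp⟩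
    left
    refine ⟨.unp, w', _, hR w w' t hw hw', rfl, ?_⟩
    apply Subst.map_of
    intro c _
    exact Or.inr rfl
  | last =>
    have hq : q = .unp := by
      rcases List.mem_cons.1 hc' with h | h
      · simpa [core] using h.symm
      · exact absurd h (hcont _)
    subst hq
    have hv' : v = [.C (.Z .fin)] := by simpa [act, core, main] using hv
    have hxx : x' = x := act_content tab term (q := .unp) rfl hcont hx'
    subst hv'
    rw [hxx] at hzz ⊢
    left
    refine ⟨.fin, w, x, hw, rfl, ?_⟩
    refine Subst.mono hx ?_
    intro c _ b hb hbx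
    rcases hb with rfl | rfl
    · exact Or.inl rfl
    · exact Or.inr (Or.inl rfl)
  | erase =>
    have hq : q = .fin := by
      rcases List.mem_cons.1 hc' with h | h
      · simpa [core] using h.symm
      · exact absurd h (hcont _)
    subst hq
    have hv' : v = [] := by simpa [act, core, main] using hv
    have hxx : x' = x := act_content tab term (q := .fin) rfl hcont hx'
    subst hv'
    rw [hxx] at hzz ⊢
    have hx2 : Subst (fun c => {w | ∃ a, term a = c ∧ w = [(.A a : Lt H S T)]}) w x := by
      refine Subst.mono hx ?_
      intro c _ b hb hbx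
      rcases hb with rfl | rfl | hb
      · exfalso
        refine hCK (.X c) ?_ (hchk' (.X c) ?_)
        · rw [hzz]
          exact hbx _ (by simp)
        · simp [chk, hL]
      · exfalso
        refine hCK (.Y c) ?_ (hchk' (.Y c) ?_)
        · rw [hzz]
          exact hbx _ (by simp)
        · simp [chk, hL]
      · exact hb
    obtain ⟨u, rfl, rfl⟩ : ∃ u : List T, w = u.map term ∧ x = u.map .A := by
      clear hzz hchk hchk' hc hc' hs hx hp hcont hxx hx'
      clear hw
      induction w generalizing x with
      | nil =>
        rw [Subst.nil_iff] at hx2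
        exact ⟨[], rfl, by simpa using hx2⟩
      | cons c w ih =>
        rw [Subst.cons_iff] at hx2
        obtain ⟨b, y, ⟨a, ha, rfl⟩, hy, rfl⟩ := hx2
        obtain ⟨u, rfl, rfl⟩ := ih _ hy
        exact ⟨a :: u, by simp [ha], by simp⟩
    right
    exact ⟨u, rfl, hw⟩
  | rew t c =>
    have hv' := hctl c (Or.inl rfl)
    subst hv'
    have hq : q = .app t := by
      by_contra hq
      refine hCK (.Z q) ?_ (hchk' (.Z q) ?_)
      · rw [hzz]; simp
      · simp [chk, hQ, hq]
    subst hq
    left
    refine ⟨.app t, w, x', hw, rfl, ?_⟩
    refine Subst.comp hx hx' ?_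
    intro c' _ b hb b' hb'
    rcases hb with rfl | ⟨v, hv, rfl⟩
    · rw [Subst.cons_iff] at hb'
      obtain ⟨b1, b2, h1, h2, rfl⟩ := hb'
      rw [Subst.nil_iff] at h2
      subst h2
      by_cases hcc : c' = c
      · subst hcc
        simp only [act, core, if_true, main] at h1
        obtain ⟨v, hv, rfl⟩ := h1
        exact Or.inr ⟨v, hv, by simp⟩
      · simp only [act, core, Lt.C.injEq, Core.X.injEq, hcc, if_false,
          Set.mem_singleton_iff] at h1
        subst h1
        exact Or.inl rfl
    · right
      refine ⟨v, hv, ?_⟩
      refine (Subst.id_iff ?_).1 hb'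
      intro d hd
      obtain ⟨e, -, rfl⟩ := List.mem_map.1 hd
      simp [act, core]
  | unp c =>
    have hv' := hctl c (Or.inr rfl)
    subst hv'
    have hq : q = .unp := by
      by_contra hq
      refine hCK (.Z q) ?_ (hchk' (.Z q) ?_)
      · rw [hzz]; simp
      · simp [chk, hQ, hq]
    subst hq
    left
    refine ⟨.unp, w, x', hw, rfl, ?_⟩
    refine Subst.comp hx hx' ?_
    intro c' _ b hb b' hb'
    rcases hb with rfl | rfl
    · left
      refine (Subst.id_iff ?_).1 hb'
      intro d hd
      simp only [List.mem_singleton] at hd
      subst hd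
      simp [act, core]
    · rw [Subst.cons_iff] at hb'
      obtain ⟨b1, b2, h1, h2, rfl⟩ := hb'
      rw [Subst.nil_iff] at h2
      subst h2
      by_cases hcc : c' = c
      · subst hcc
        simp only [act, core, if_true, main, Set.mem_singleton_iff] at h1
        subst h1
        exact Or.inl rfl
      · simp only [act, core, Lt.C.injEq, Core.Y.injEq, hcc, if_false,
          Set.mem_singleton_iff] at h1
        subst h1
        exact Or.inr rfl
  | trm a =>
    have hv' := hctl (term a) (Or.inl rfl)
    subst hv'
    have hq : q = .fin := by
      by_contra hq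
      refine hCK (.Z q) ?_ (hchk' (.Z q) ?_)
      · rw [hzz]; simp
      · simp [chk, hQ, hq]
    subst hq
    left
    refine ⟨.fin, w, x', hw, rfl, ?_⟩
    refine Subst.comp hx hx' ?_
    intro c' _ b hb b' hb'
    rcases hb with rfl | rfl | ⟨a', ha', rfl⟩
    · rw [Subst.cons_iff] at hb'
      obtain ⟨b1, b2, h1, h2, rfl⟩ := hb'
      rw [Subst.nil_iff] at h2
      subst h2
      by_cases hcc : c' = term a
      · subst hcc
        simp only [act, core, if_true, main, Set.mem_singleton_iff] at h1
        subst h1
        exact Or.inr (Or.inr ⟨a, rfl, rfl⟩)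
      · simp only [act, core, Lt.C.injEq, Core.X.injEq, hcc, if_false,
          Set.mem_singleton_iff] at h1
        subst h1
        exact Or.inl rfl
    · right; left
      refine (Subst.id_iff ?_).1 hb'
      intro d hd
      simp only [List.mem_singleton] at hd
      subst hd
      simp [act, core]
    · right; right
      refine ⟨a', ha', ?_⟩
      refine (Subst.id_iff ?_).1 hb'
      intro d hd
      simp only [List.mem_singleton] at hd
      subst hd
      simp [act, core]

/-! ### Simulation -/

/-- Derivability. -/
abbrev Ders := Relation.ReflTransGen (Stp L Q tab term)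

theorem ders_strip {z : List (Lt H S T)} (hd : ¬ Dead z) : Ders L Q tab term z (strip z) := by
  induction hn : z.length using Nat.strong_induction_on generalizing z with
  | _ n ih =>
    by_cases hz : ∃ l, Lt.K l ∈ z
    · obtain ⟨l, hl⟩ := hz
      have hC : Lt.C l ∉ z := fun h => hd (Or.inr ⟨l, h, hl⟩)
      set z' := z.filter (fun x => decide (x ≠ .K l)) with hz'
      have hst : Stp L Q tab term z z' := by
        refine ⟨eat l, Or.inr ⟨l, rfl⟩, ?_⟩
        rw [hz']
        clear ih hd hl hn hz'
        induction z with
        | nil => exact Subst.nil_iff.2 rfl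
        | cons x z ihz =>
          rw [Subst.cons_iff]
          have hCz : Lt.C l ∉ z := fun h => hC (by simp [h])
          have hx : x ≠ .C l := fun h => hC (by simp [h])
          by_cases hxk : x = .K l
          · refine ⟨[], _, ?_, ihz hCz, ?_⟩
            · simp [eat, hxk]
            · simp [hxk]
          · refine ⟨[x], _, ?_, ihz hCz, ?_⟩
            · simp [eat, hxk, hx]
            · simp [hxk]
      have hlen : z'.length < z.length := by
        rw [hz']
        by_contra hlen
        have h1 := List.length_filter_le (fun x => decide (x ≠ .K l)) z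
        have h2 : (z.filter (fun x => decide (x ≠ .K l))).length = z.length := by omega
        rw [List.length_filter_eq_length_iff] at h2
        simpa using h2 _ hl
      have hd' : ¬ Dead z' := by
        rintro (h | ⟨l', h1, h2⟩)
        · exact hd (Or.inl (List.mem_of_mem_filter h))
        · exact hd (Or.inr ⟨l', List.mem_of_mem_filter h1, List.mem_of_mem_filter h2⟩)
      have h3 := ih z'.length (hn ▸ hlen) hd' rfl
      have h4 : strip z' = strip z := by
        rw [hz', strip, strip, List.filter_filter]
        apply List.filter_congr
        intro x _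
        by_cases hxk : x = .K l
        · simp [hxk, nk]
        · simp [hxk]
      rw [h4] at h3
      exact Relation.ReflTransGen.head hst h3
    · have : strip z = z := by
        rw [strip, List.filter_eq_self]
        intro x hx
        cases x with
        | K l => exact absurd ⟨l, hx⟩ hz
        | _ => rfl
      rw [this]

/-- Words without checkers and without the dead letter. -/
def Clean (p : List (Lt H S T)) : Prop := .F ∉ p ∧ ∀ l, .K l ∉ p

theorem move {r : Rule H S T} {p p' : List (Lt H S T)} (hp : Clean p) (hp' : Clean p')
    (h : Subst (act tab term r) p p') (hD : ∀ d ∈ chk L Q r, .C d ∉ p') :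
    Ders L Q tab term p p' := by
  have key : ∀ p p' : List (Lt H S T), Clean p → Subst (act tab term r) p p' →
      ∃ z, Subst (fire L Q tab term r) p z ∧ strip z = strip p' ∧
        (∀ l, .K l ∈ z → l ∈ chk L Q r ∨ .K l ∈ p') ∧ (.F ∈ z → .F ∈ p') := by
    intro p
    induction p with
    | nil =>
      intro p' _ h
      rw [Subst.nil_iff] at h
      subst h
      exact ⟨[], Subst.nil_iff.2 rfl, rfl, by simp, by simp⟩
    | cons x p ih =>
      intro p' hp h
      rw [Subst.cons_iff] at h
      obtain ⟨w, y, hw, hy, rfl⟩ := h
      have hpc : Clean p := ⟨fun h => hp.1 (by simp [h]), fun l h => hp.2 l (by simp [h])⟩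
      obtain ⟨z, h1, h2, h3, h4⟩ := ih y hpc hy
      by_cases hx : x = .C (core term r)
      · simp only [act, hx, if_true] at hw
        refine ⟨(w ++ (chk L Q r).map .K) ++ z, ?_, ?_, ?_, ?_⟩
        · rw [Subst.cons_iff]
          refine ⟨_, z, ?_, h1, rfl⟩
          simp only [fire, hx, if_true]
          exact ⟨w, hw, rfl⟩
        · rw [strip_append, strip_append, strip_append, strip_K, h2, List.append_nil]
        · intro l hl
          simp only [List.mem_append, List.mem_map, Lt.K.injEq, exists_eq_right] at hl ⊢
          rcases hl with (hl | hl) | hl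
          · exact Or.inr (Or.inl hl)
          · exact Or.inl hl
          · rcases h3 l hl with h | h
            · exact Or.inl h
            · exact Or.inr (Or.inr h)
        · intro hl
          simp only [List.mem_append, List.mem_map, reduceCtorEq, and_false, exists_false,
            or_false] at hl ⊢
          rcases hl with hl | hl
          · exact Or.inl hl
          · exact Or.inr (h4 hl)
      · have hxk : x ≠ .K (core term r) := fun h => hp.2 (core term r) (by simp [h])
        simp only [act, if_neg hx, Set.mem_singleton_iff] at hw
        subst hw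
        refine ⟨[x] ++ z, ?_, ?_, ?_, ?_⟩
        · rw [Subst.cons_iff]
          refine ⟨[x], z, ?_, h1, rfl⟩
          simp [fire, hx, hxk]
        · rw [strip_append, strip_append, h2]
        · intro l hl
          simp only [List.cons_append, List.nil_append, List.mem_cons] at hl ⊢
          rcases hl with hl | hl
          · exact Or.inr (Or.inl hl)
          · rcases h3 l hl with h | h
            · exact Or.inl h
            · exact Or.inr (Or.inr h)
        · intro hl
          simp only [List.cons_append, List.nil_append, List.mem_cons] at hl ⊢
          rcases hl with hl | hl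
          · exact Or.inl hl
          · exact Or.inr (h4 hl)
  obtain ⟨z, h1, h2, h3, h4⟩ := key p p' hp h
  have hsp' : strip p' = p' := by
    rw [strip, List.filter_eq_self]
    intro x hx
    cases x with
    | K l => exact absurd hx (hp'.2 l)
    | _ => rfl
  have hd : ¬ Dead z := by
    rintro (h | ⟨l, hl1, hl2⟩)
    · exact hp'.1 (h4 h)
    · rcases h3 l hl2 with h | h
      · refine hD l h ?_
        rw [← hsp', ← h2]
        exact mem_strip.2 ⟨hl1, rfl⟩
      · exact hp'.2 l h
  have h5 := ders_strip L Q tab term hd
  rw [h2, hsp'] at h5
  exact Relation.ReflTransGen.head ⟨_, Or.inl ⟨r, rfl⟩, h1⟩ h5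

theorem subst_ctl {r : Rule H S T} {q : Mode H} {x x' : List (Lt H S T)}
    (hr : core term r ≠ .Z q) (h : Subst (act tab term r) x x') :
    Subst (act tab term r) (.C (.Z q) :: x) (.C (.Z q) :: x') := by
  rw [Subst.cons_iff]
  refine ⟨[.C (.Z q)], x', ?_, h, rfl⟩
  have : (Lt.C (.Z q) : Lt H S T) ≠ .C (core term r) := fun h => hr (by simpa using h.symm)
  simp [act, this]

theorem subst_main {r : Rule H S T} {q : Mode H} {w x : List (Lt H S T)}
    (hr : core term r = .Z q) (hw : w ∈ main tab r) (hx : Content x) :
    Subst (act tab term r) (.C (.Z q) :: x) (w ++ x) := by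
  rw [Subst.cons_iff]
  refine ⟨w, x, ?_, ?_, rfl⟩
  · simp [act, hr, hw]
  · refine (Subst.id_iff ?_).2 rfl
    intro c hc
    have : c ≠ .C (core term r) := by
      rintro rfl
      rw [hr] at hc
      exact hx q hc
    simp [act, this]

/-- Simulation of one table. -/
theorem ders_step (hL : ∀ c, c ∈ L) {t : H} {w w' : List S} (h : Subst (tab t) w w') :
    Ders L Q tab term (.C (.Z .unp) :: w.map fun c => .C (.X c))
      (.C (.Z .unp) :: w'.map fun c => .C (.X c)) := by
  obtain ⟨ps, rfl, rfl, hps⟩ : ∃ ps : List (S × List S), w = ps.map Prod.fst ∧
      w' = ps.flatMap Prod.snd ∧ ∀ p ∈ ps, p.2 ∈ tab t p.1 := by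
    clear hL
    induction w generalizing w' with
    | nil =>
      rw [Subst.nil_iff] at h
      exact ⟨[], rfl, by simpa using h, by simp⟩
    | cons c w ih =>
      rw [Subst.cons_iff] at h
      obtain ⟨v, y, hv, hy, rfl⟩ := h
      obtain ⟨ps, rfl, rfl, hps⟩ := ih hy
      refine ⟨(c, v) :: ps, rfl, by simp, ?_⟩
      intro p hp
      rcases List.mem_cons.1 hp with rfl | hp
      · exact hv
      · exact hps p hp
  -- the intermediate words
  let f : List S → S × List S → List (Lt H S T) := fun l p =>
    if p.1 ∈ l then p.2.map (fun d => .C (.Y d)) else [.C (.X p.1)]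
  have hmemf : ∀ l (ps : List (S × List S)) x, x ∈ ps.flatMap (f l) →
      (∃ c, x = .C (.X c) ∧ c ∉ l) ∨ ∃ c, x = .C (.Y c) := by
    intro l ps x hx
    obtain ⟨p, -, hp⟩ := List.mem_flatMap.1 hx
    simp only [f] at hp
    split_ifs at hp with hpl
    · obtain ⟨d, -, rfl⟩ := List.mem_map.1 hp
      exact Or.inr ⟨d, rfl⟩
    · simp only [List.mem_singleton] at hp
      exact Or.inl ⟨p.1, hp, hpl⟩
  have hclean : ∀ q l, Clean (Lt.C (.Z q) :: ps.flatMap (f l)) := by
    intro q l
    constructor
    · intro hx
      rcases List.mem_cons.1 hx with hx | hx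
      · simp at hx
      · rcases hmemf l ps _ hx with ⟨c, h, -⟩ | ⟨c, h⟩ <;> simp at h
    · intro l' hx
      rcases List.mem_cons.1 hx with hx | hx
      · simp at hx
      · rcases hmemf l ps _ hx with ⟨c, h, -⟩ | ⟨c, h⟩ <;> simp at h
  have hcontf : ∀ l, Content (ps.flatMap (f l)) := by
    intro l q hx
    rcases hmemf l ps _ hx with ⟨c, h, -⟩ | ⟨c, h⟩ <;> simp at h
  have e0 : (ps.map Prod.fst).map (fun c => (Lt.C (.X c) : Lt H S T)) = ps.flatMap (f []) := by
    simp only [f, List.not_mem_nil, if_false]
    clear h hps hclean hcontf
    induction ps with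
    | nil => rfl
    | cons p ps ih => simp only [List.map_cons, List.flatMap_cons, ih]; rfl
  have e1 : ps.flatMap (f L) = (ps.flatMap Prod.snd).map (fun c => (Lt.C (.Y c) : Lt H S T)) := by
    simp only [f, hL, if_true]
    clear h hps hclean hcontf e0
    induction ps with
    | nil => rfl
    | cons p ps ih => simp only [List.flatMap_cons, ih, List.map_append]
  -- enter mode `app t`
  have s1 : Ders L Q tab term (.C (.Z .unp) :: (ps.map Prod.fst).map fun c => .C (.X c))
      (.C (.Z (.app t)) :: ps.flatMap (f [])) := by
    rw [e0]
    refine move L Q tab term (r := .start t) (hclean _ _) (hclean _ _)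
      (subst_main tab term rfl (w := [.C (.Z (.app t))]) rfl (hcontf [])) ?_
    intro d hd hx
    simp only [chk, List.mem_map] at hd
    obtain ⟨c, -, rfl⟩ := hd
    rcases List.mem_cons.1 hx with hx | hx
    · simp at hx
    · rw [← e0] at hx
      simp at hx
  -- rewrite the letters
  have s2 : ∀ l, Ders L Q tab term (.C (.Z (.app t)) :: ps.flatMap (f []))
      (.C (.Z (.app t)) :: ps.flatMap (f l)) := by
    intro l
    induction l with
    | nil => exact .refl
    | cons c l ih =>
      refine ih.trans ?_
      refine move L Q tab term (r := .rew t c) (hclean _ _) (hclean _ _)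
        (subst_ctl tab term (by simp [core]) ?_) ?_
      · refine Subst.flatMap_of ps _ _ ?_
        intro p hp
        by_cases hpl : p.1 ∈ l
        · simp only [f, hpl, if_true, List.mem_cons, or_true]
          refine (Subst.id_iff ?_).2 rfl
          intro x hx
          obtain ⟨d, -, rfl⟩ := List.mem_map.1 hx
          simp [act, core]
        · by_cases hpc : p.1 = c
          · subst hpc
            simp only [f, hpl, if_false, List.mem_cons, true_or, if_true]
            rw [Subst.cons_iff]
            refine ⟨p.2.map (fun d => .C (.Y d)), [], ?_, Subst.nil_iff.2 rfl, by simp⟩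
            simp only [act, core, if_true, main]
            exact ⟨p.2, hps p hp, rfl⟩
          · simp only [f, hpl, if_false, List.mem_cons, hpc, or_false]
            refine (Subst.id_iff ?_).2 rfl
            intro x hx
            simp only [List.mem_singleton] at hx
            subst hx
            simp [act, core, hpc]
      · intro d hd hx
        simp only [chk, List.mem_map, List.mem_filter, decide_eq_true_eq] at hd
        obtain ⟨q, ⟨-, hq⟩, rfl⟩ := hd
        rcases List.mem_cons.1 hx with hx | hx
        · simp at hx
          exact hq hx
        · exact hcontf _ _ hx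
  -- leave mode `app t`
  let g : List S → List S → List (Lt H S T) := fun l v =>
    v.map fun c => if c ∈ l then .C (.X c) else .C (.Y c)
  set w' := ps.flatMap Prod.snd with hw'
  have hmemg : ∀ l v x, x ∈ g l v → (∃ c, x = .C (.X c)) ∨ ∃ c, x = .C (.Y c) := by
    intro l v x hx
    obtain ⟨c, -, rfl⟩ := List.mem_map.1 hx
    split_ifs
    · exact Or.inl ⟨c, rfl⟩
    · exact Or.inr ⟨c, rfl⟩
  have hcleang : ∀ q l, Clean (Lt.C (.Z q) :: g l w') := by
    intro q l
    constructor
    · intro hx
      rcases List.mem_cons.1 hx with hx | hx
      · simp at hx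
      · rcases hmemg l _ _ hx with ⟨c, h⟩ | ⟨c, h⟩ <;> simp at h
    · intro l' hx
      rcases List.mem_cons.1 hx with hx | hx
      · simp at hx
      · rcases hmemg l _ _ hx with ⟨c, h⟩ | ⟨c, h⟩ <;> simp at h
  have hcontg : ∀ l, Content (g l w') := by
    intro l q hx
    rcases hmemg l _ _ hx with ⟨c, h⟩ | ⟨c, h⟩ <;> simp at h
  have e2 : ps.flatMap (f L) = g [] w' := by
    rw [e1]
    simp [g]
  have e3 : g L w' = w'.map (fun c => (Lt.C (.X c) : Lt H S T)) := by
    simp [g, hL]
  have s3 : Ders L Q tab term (.C (.Z (.app t)) :: ps.flatMap (f L))
      (.C (.Z .unp) :: g [] w') := by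
    rw [e2]
    refine move L Q tab term (r := .stop t) (hcleang _ _) (hcleang _ _)
      (subst_main tab term rfl (w := [.C (.Z .unp)]) rfl (hcontg [])) ?_
    intro d hd hx
    simp only [chk, List.mem_map] at hd
    obtain ⟨c, -, rfl⟩ := hd
    rcases List.mem_cons.1 hx with hx | hx
    · simp at hx
    · simp [g] at hx
  -- remove the primes
  have s4 : ∀ l, Ders L Q tab term (.C (.Z .unp) :: g [] w') (.C (.Z .unp) :: g l w') := by
    intro l
    induction l with
    | nil => exact .refl
    | cons c l ih =>
      refine ih.trans ?_
      refine move L Q tab term (r := .unp c) (hcleang _ _) (hcleang _ _)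
        (subst_ctl tab term (by simp [core]) ?_) ?_
      · have : ∀ v : List S, Subst (act tab term (.unp c)) (g l v) (g (c :: l) v) := by
          intro v
          induction v with
          | nil => exact Subst.nil_iff.2 rfl
          | cons a v ihv =>
            simp only [g, List.map_cons]
            rw [Subst.cons_iff]
            refine ⟨[_], _, ?_, ihv, rfl⟩
            by_cases hal : a ∈ l
            · simp [hal, act, core]
            · by_cases hac : a = c
              · subst hac
                simp [hal, act, core, main]
              · simp [hal, hac, act, core]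
        exact this w'
      · intro d hd hx
        simp only [chk, List.mem_map, List.mem_filter, decide_eq_true_eq] at hd
        obtain ⟨q, ⟨-, hq⟩, rfl⟩ := hd
        rcases List.mem_cons.1 hx with hx | hx
        · simp at hx
          exact hq hx
        · exact hcontg _ _ hx
  have s5 := s4 L
  rw [e3] at s5
  exact s1.trans ((s2 L).trans (s3.trans s5))

/-- The end of the simulation. -/
theorem ders_final (M : List T) (hM : ∀ a, a ∈ M) (u : List T) :
    Ders L Q tab term (.C (.Z .unp) :: (u.map term).map fun c => .C (.X c)) (u.map .A) := by
  let g : List T → List T → List (Lt H S T) := fun l v =>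
    v.map fun a => if a ∈ l then .A a else .C (.X (term a))
  have hmemg : ∀ l v x, x ∈ g l v → (∃ c, x = .C (.X c)) ∨ ∃ a, x = .A a := by
    intro l v x hx
    obtain ⟨c, -, rfl⟩ := List.mem_map.1 hx
    split_ifs
    · exact Or.inr ⟨c, rfl⟩
    · exact Or.inl ⟨term c, rfl⟩
  have hcleang : ∀ q l, Clean (Lt.C (.Z q) :: g l u) := by
    intro q l
    constructor
    · intro hx
      rcases List.mem_cons.1 hx with hx | hx
      · simp at hx
      · rcases hmemg l _ _ hx with ⟨c, h⟩ | ⟨c, h⟩ <;> simp at h
    · intro l' hx
      rcases List.mem_cons.1 hx with hx | hx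
      · simp at hx
      · rcases hmemg l _ _ hx with ⟨c, h⟩ | ⟨c, h⟩ <;> simp at h
  have hcontg : ∀ l, Content (g l u) := by
    intro l q hx
    rcases hmemg l _ _ hx with ⟨c, h⟩ | ⟨c, h⟩ <;> simp at h
  have e0 : (u.map term).map (fun c => (Lt.C (.X c) : Lt H S T)) = g [] u := by
    simp [g]
  have e1 : g M u = u.map .A := by
    simp [g, hM]
  have s1 : Ders L Q tab term (.C (.Z .unp) :: (u.map term).map fun c => .C (.X c))
      (.C (.Z .fin) :: g [] u) := by
    rw [e0]
    refine move L Q tab term (r := .last) (hcleang _ _) (hcleang _ _)
      (subst_main tab term rfl (w := [.C (.Z .fin)]) rfl (hcontg [])) ?_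
    intro d hd
    simp [chk] at hd
  have s2 : ∀ l, Ders L Q tab term (.C (.Z .fin) :: g [] u) (.C (.Z .fin) :: g l u) := by
    intro l
    induction l with
    | nil => exact .refl
    | cons b l ih =>
      refine ih.trans ?_
      refine move L Q tab term (r := .trm b) (hcleang _ _) (hcleang _ _)
        (subst_ctl tab term (by simp [core]) ?_) ?_
      · have : ∀ v : List T, Subst (act tab term (.trm b)) (g l v) (g (b :: l) v) := by
          intro v
          induction v with
          | nil => exact Subst.nil_iff.2 rfl
          | cons a v ihv =>
            simp only [g, List.map_cons]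
            rw [Subst.cons_iff]
            refine ⟨[_], _, ?_, ihv, rfl⟩
            by_cases hal : a ∈ l
            · simp [hal, act]
            · by_cases hac : a = b
              · subst hac
                simp [hal, act, core, main]
              · simp [hal, hac, act, core]
        exact this u
      · intro d hd hx
        simp only [chk, List.mem_map, List.mem_filter, decide_eq_true_eq] at hd
        obtain ⟨q, ⟨-, hq⟩, rfl⟩ := hd
        rcases List.mem_cons.1 hx with hx | hx
        · simp at hx
          exact hq hx
        · exact hcontg _ _ hx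
  have s3 : Ders L Q tab term (.C (.Z .fin) :: g M u) (u.map .A) := by
    have hcl : Clean (u.map (.A : T → Lt H S T)) := ⟨by simp, by simp⟩
    have h1 := move L Q tab term (r := .erase) (hcleang .fin M) (p' := [] ++ g M u) (by simpa [e1] using hcl)
      (subst_main tab term rfl (w := []) rfl (hcontg M)) (by
        intro d hd hx
        rw [List.nil_append, e1] at hx
        simp at hx)
    rw [List.nil_append] at h1
    rw [e1] at h1 ⊢
    exact h1
  exact s1.trans ((s2 M).trans s3)

end

end Checker

/-- Every ET0L language is generated by a 2-restricted ET0L system. -/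
theorem exists_restricted_two {T : Type} (G : ET0L T) :
    ∃ G' : ET0L T, G'.Restricted 2 ∧ G'.lang = G.lang := by
  have hS : Finite G.Letter := G.letter_finite
  have hT : Finite T := Finite.of_injective G.terminal G.terminal.injective
  have hH : Finite G.tables := G.tables_finite
  have := Fintype.ofFinite G.Letter
  have := Fintype.ofFinite T
  have := Checker.finite_mode G.tables
  have := Fintype.ofFinite (Checker.Mode G.tables)
  let tab : G.tables → G.Letter → Set (List G.Letter) := fun h => h.1
  let L : List G.Letter := Finset.univ.toList
  let Q : List (Checker.Mode G.tables) := Finset.univ.toList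
  have hL : ∀ c, c ∈ L := by simp [L]
  have hQ : ∀ q, q ∈ Q := by simp [Q]
  let z0 : List (Checker.Lt G.tables G.Letter T) :=
    .C (.Z .unp) :: G.start.map fun c => .C (.X c)
  let G' : ET0L T :=
    { Letter := Checker.Lt G.tables G.Letter T
      letter_finite := Checker.finite_lt _ _ _
      tables := Checker.tabs L Q tab G.terminal
      tables_finite := Checker.tabs_finite L Q tab G.terminal
      tables_nonempty := ⟨_, Or.inl ⟨.last, rfl⟩⟩
      image_finite := Checker.image_finite L Q tab G.terminal
        (fun t c => G.image_finite _ t.2 c)
      image_nonempty := Checker.image_nonempty L Q tab G.terminal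
        (fun t c => G.image_nonempty _ t.2 c)
      start := z0
      start_ne := by simp [z0]
      terminal := ⟨fun a => .A a, fun a b h => by simpa using h⟩ }
  refine ⟨G', ?_, ?_⟩
  · intro h hh
    exact Checker.restricted L Q tab G.terminal h hh
  · ext u
    constructor
    · intro hu
      have hu' : Relation.ReflTransGen (Checker.Stp L Q tab G.terminal) z0 (u.map .A) := hu
      have hR : ∀ w w' t, G.Reach w → Subst (tab t) w w' → G.Reach w' := by
        intro w w' t hw hs
        exact hw.tail ⟨t.1, t.2, hs⟩
      have hP : ∀ z, Relation.ReflTransGen (Checker.Stp L Q tab G.terminal) z0 z →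
          Checker.Dead z ∨ Checker.Inv tab G.terminal G.Reach (Checker.strip z) := by
        intro z hz
        induction hz with
        | refl =>
          right
          left
          refine ⟨.unp, G.start, G.start.map fun c => .C (.X c),
            Relation.ReflTransGen.refl, ?_, ?_⟩
          · rw [Checker.strip, List.filter_eq_self]
            intro x hx
            rcases List.mem_cons.1 hx with rfl | hx
            · rfl
            · obtain ⟨c, -, rfl⟩ := List.mem_map.1 hx
              rfl
          · apply Subst.map_of
            intro c _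
            exact Or.inl rfl
        | @tail b c _ h2 ih =>
          by_cases hd : Checker.Dead c
          · exact Or.inl hd
          · right
            rcases ih with ih | ih
            · exact absurd (Checker.dead_step L Q tab G.terminal h2 ih) hd
            · exact Checker.inv_step L Q tab G.terminal G.Reach hL hQ hR h2 hd ih
      rcases hP _ hu' with (h | ⟨l, h, -⟩) | h
      · simp at h
      · simp at h
      · have e1 : Checker.strip (u.map (.A : T → Checker.Lt G.tables G.Letter T)) = u.map .A := by
          rw [Checker.strip, List.filter_eq_self]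
          intro x hx
          obtain ⟨c, -, rfl⟩ := List.mem_map.1 hx
          rfl
        rw [e1] at h
        rcases h with ⟨q, w, x, -, h, -⟩ | ⟨u', h, hu'⟩
        · exfalso
          have : (Checker.Lt.C (.Z q) : Checker.Lt G.tables G.Letter T) ∈ u.map .A := by
            rw [h]; simp
          simp at this
        · have : u = u' := by
            refine List.map_injective_iff.2 ?_ h
            intro a b hab
            simpa using hab
          subst this
          exact hu'
    · intro hu
      have hu' : Relation.ReflTransGen G.Step G.start (u.map G.terminal) := hu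
      have key : ∀ w, Relation.ReflTransGen G.Step G.start w →
          Checker.Ders L Q tab G.terminal z0 (.C (.Z .unp) :: w.map fun c => .C (.X c)) := by
        intro w hw
        induction hw with
        | refl => exact .refl
        | tail _ h2 ih =>
          obtain ⟨h, hh, hs⟩ := h2
          exact ih.trans (Checker.ders_step L Q tab G.terminal hL (t := ⟨h, hh⟩) hs)
      exact (key _ hu').trans
        (Checker.ders_final L Q tab G.terminal Finset.univ.toList (by simp) u)

end Pool.Agent.P4de4a9
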