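import Pool.Agent.Lib.P4de4a9.Hole

namespace Pool.Agent.P4de4a9

open Classical Hole

/-- Every ET0L language is generated by a 3-restricted ET0L system. -/
theorem exists_restricted_three {T : Type} (G : ET0L T) :
    ∃ G' : ET0L T, G'.Restricted 3 ∧ G'.lang = G.lang := by
  have hS : Finite G.Letter := G.letter_finite
  have hT : Finite T := Finite.of_injective G.terminal G.terminal.injective
  have hH : Finite G.tables := G.tables_finite
  set n := Nat.card G.Letter with hn
  let e : G.Letter ≃ Fin n := Finite.equivFin G.Letter
  let tab : G.tables → G.Letter → Set (List G.Letter) := fun h => h.1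
  have hpos : 0 < n := by
    obtain ⟨c, l, hc⟩ := List.exists_cons_of_ne_nil G.start_ne
    have : Nonempty G.Letter := ⟨c⟩
    exact Nat.card_pos
  have hmode : Finite (Mode G.tables) := finite_mode G.tables
  have hV : Finite (Vt G.tables n) := inferInstance
  have hVf : Fintype (Vt G.tables n) := Fintype.ofFinite _
  let s0 : St G.tables n := (.unp, ⟨n - 1, by omega⟩)
  let ctl0 : List (Vt G.tables n) := (Finset.univ.erase (some s0)).toList
  let z0 : List (Lt (Vt G.tables n) G.Letter T) := ctl0.map .E ++ G.start.map .X
  have hconf0 : Conf (some s0) (G.start.map .X) z0 := by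
    refine ⟨ctl0, Finset.nodup_toList _, ?_, rfl⟩
    intro u
    simp [ctl0]
  let G' : ET0L T :=
    { Letter := Lt (Vt G.tables n) G.Letter T
      letter_finite := finite_lt _ _ _
      tables := tabs e tab G.terminal
      tables_finite := tabs_finite e tab G.terminal
      tables_nonempty := ⟨_, Or.inr ⟨none, rfl⟩⟩
      image_finite := image_finite e tab G.terminal (fun t c => G.image_finite _ t.2 c)
      image_nonempty := image_nonempty e tab G.terminal (fun t c => G.image_nonempty _ t.2 c)
      start := z0
      start_ne := by
        have : G.start.map (.X : G.Letter → Lt (Vt G.tables n) G.Letter T) ≠ [] := by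
          simpa using G.start_ne
        simp [z0, this]
      terminal := ⟨fun a => .A a, fun a b h => by simpa using h⟩ }
  refine ⟨G', ?_, ?_⟩
  · intro h hh
    exact restricted e tab G.terminal h hh
  · ext u
    constructor
    · intro hu
      have hu' : Relation.ReflTransGen (Stp e tab G.terminal) z0 (u.map .A) := hu
      have hR : ∀ w w' t, G.Reach w → Subst (tab t) w w' → G.Reach w' := by
        intro w w' t hw hs
        exact hw.tail ⟨t.1, t.2, hs⟩
      have hP : ∀ z, Relation.ReflTransGen (Stp e tab G.terminal) z0 z →
          P e tab G.terminal G.Reach z := by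
        intro z hz
        induction hz with
        | refl =>
          right
          left
          refine ⟨s0, _, hconf0, G.start, Relation.ReflTransGen.refl, ?_, ?_⟩
          · apply Subst.map_of
            intro c _
            exact Or.inl rfl
          · intro c _
            simp [s0, actm]
        | tail _ h2 ih => exact P_step e tab G.terminal G.Reach hR ih h2
      exact P_final e tab G.terminal G.Reach (hP _ hu')
    · intro hu
      have hu' : Relation.ReflTransGen G.Step G.start (u.map G.terminal) := hu
      have key : ∀ w, Relation.ReflTransGen G.Step G.start w →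
          CR e tab G.terminal z0 (some s0) (w.map .X) := by
        intro w hw
        induction hw with
        | refl => exact ⟨z0, Relation.ReflTransGen.refl, hconf0⟩
        | tail _ h2 ih =>
          obtain ⟨h, hh, hs⟩ := h2
          exact CR_step e tab G.terminal hpos ⟨h, hh⟩ ih hs
      have h1 := CR_final e tab G.terminal hpos (key _ hu')
      obtain ⟨z, hz, ctl, hnd, hctl, rfl⟩ := h1
      exact Rch_erase e tab G.terminal ctl hnd (fun h => (hctl none).1 h rfl) hz

theorem fam_mono {T : Type} {k k' : ℕ} (h : k ≤ k') : Fam T k ⊆ Fam T k' := by
  rintro L ⟨G, hG, rfl⟩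
  exact ⟨G, fun t ht => (hG t ht).trans h, rfl⟩

theorem fam_eq_three {T : Type} {k : ℕ} (h : 3 ≤ k) : Fam T k = Fam T 3 := by
  apply Set.Subset.antisymm _ (fam_mono h)
  rintro L ⟨G, -, rfl⟩
  exact exists_restricted_three G

end Pool.Agent.P4de4a9
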