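import Mathlib

/-!
# ET0L systems and their `k`-restricted subclasses

Definitions for MP_4de4a9_lc.
-/

namespace Pool.Agent.P4de4a9

/-- `Subst h x y`: the word `y` is obtained from the word `x` by rewriting every letter occurrence
`c` of `x`, simultaneously and independently, to some word of `h c`. -/
def Subst {S S' : Type} (h : S → Set (List S')) (x : List S) (y : List S') : Prop :=
  ∃ ws : List (List S'), List.Forall₂ (fun c w => w ∈ h c) x ws ∧ y = ws.flatten

/-- An ET0L system `(Σ, H, ω, Δ)` whose terminal letters are named by the elements of `T`. -/
structure ET0L (T : Type) where
  /-- the alphabet `Σ` -/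
  Letter : Type
  /-- the alphabet is finite -/
  letter_finite : Finite Letter
  /-- the set `H` of tables; a table maps every letter to a set of words -/
  tables : Set (Letter → Set (List Letter))
  /-- there are finitely many tables -/
  tables_finite : tables.Finite
  /-- there is at least one table -/
  tables_nonempty : tables.Nonempty
  /-- tables are finite substitutions -/
  image_finite : ∀ h ∈ tables, ∀ c, (h c).Finite
  /-- every letter has at least one replacement -/
  image_nonempty : ∀ h ∈ tables, ∀ c, (h c).Nonempty
  /-- the axiom `ω` -/
  start : List Letter
  /-- the axiom is a nonempty word -/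
  start_ne : start ≠ []
  /-- the terminal letters, as letters of the alphabet -/
  terminal : T ↪ Letter

namespace ET0L

variable {T : Type}

/-- One derivation step. -/
def Step (G : ET0L T) (x y : List G.Letter) : Prop :=
  ∃ h ∈ G.tables, Subst h x y

/-- Derivability from the axiom. -/
def Reach (G : ET0L T) (x : List G.Letter) : Prop :=
  Relation.ReflTransGen G.Step G.start x

/-- The language generated by the system: all terminal words derivable from the axiom. -/
def lang (G : ET0L T) : Set (List T) :=
  {w | G.Reach (w.map G.terminal)}

/-- `G` is `k`-restricted: in every table at most `k` letters are rewritten otherwise than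
to themselves only. -/
def Restricted (G : ET0L T) (k : ℕ) : Prop :=
  ∀ h ∈ G.tables, {c | h c ≠ {[c]}}.ncard ≤ k

end ET0L

/-- The languages over the terminal alphabet `T` generated by `k`-restricted ET0L systems. -/
def Fam (T : Type) (k : ℕ) : Set (Set (List T)) :=
  {L | ∃ G : ET0L T, G.Restricted k ∧ G.lang = L}

end Pool.Agent.P4de4a9
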