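import Pool.Agent.Lib.P4de4a9.SubstLemmas

/-!
# Every ET0L language is generated by a 3-restricted ET0L system

The hole automaton: the control part of a word contains one marker for every state except the
current one.
-/

namespace Pool.Agent.P4de4a9

open Classical

namespace Hole

/-- Modes of the simulation: applying a table, removing primes, final stage. -/
inductive Mode (H : Type)
  | app (t : H)
  | unp
  | fin

/-- Letters of the simulating system. -/
inductive Lt (V S T : Type)
  | E (v : V)
  | X (c : S)
  | Y (c : S)
  | A (a : T)
  | F

theorem finite_mode (H : Type) [Finite H] : Finite (Mode H) :=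
  Finite.of_injective (fun m : Mode H => match m with
    | .app t => (some (some t) : Option (Option H))
    | .unp => none
    | .fin => some none) (by
      intro a b h
      cases a <;> cases b <;> simp_all)

theorem finite_lt (V S T : Type) [Finite V] [Finite S] [Finite T] : Finite (Lt V S T) :=
  Finite.of_injective (fun m : Lt V S T => match m with
    | .E v => (Sum.inl (Sum.inl v) : (V ⊕ S) ⊕ ((S ⊕ T) ⊕ Unit))
    | .X c => Sum.inl (Sum.inr c)
    | .Y c => Sum.inr (Sum.inl (Sum.inl c))
    | .A a => Sum.inr (Sum.inl (Sum.inr a))
    | .F => Sum.inr (Sum.inr ())) (by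
      intro a b h
      cases a <;> cases b <;> simp_all)

section

variable {H S T : Type} {n : ℕ} (e : S ≃ Fin n) (tab : H → S → Set (List S)) (term : T ↪ S)

/-- Active states. -/
abbrev St (H : Type) (n : ℕ) := Mode H × Fin n

/-- All states; `none` is the state `done`. -/
abbrev Vt (H : Type) (n : ℕ) := Option (St H n)

/-- The active content letter for the letter `c` in a mode. -/
def actm : Mode H → S → Lt (Vt H n) S T
  | .app _, c => .X c
  | .unp, c => .Y c
  | .fin, c => .X c

/-- The active content letter of a state. -/
def act (s : St H n) : Lt (Vt H n) S T := actm s.1 (e.symm s.2)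

/-- Replacement words of a letter in a mode. -/
def rhsm : Mode H → S → Set (List (Lt (Vt H n) S T))
  | .app t, c => (fun v => v.map .Y) '' tab t c
  | .unp, c => {[.X c]}
  | .fin, c => {w | w = [.X c] ∨ ∃ a, term a = c ∧ w = [.A a]}

/-- Allowed transitions. -/
def next (s : St H n) : Vt H n → Prop
  | none => s.1 = .fin ∧ s.2.val + 1 = n
  | some s' => (s'.1 = s.1 ∧ s'.2.val = s.2.val + 1) ∨
      (s.2.val + 1 = n ∧ s'.2.val = 0 ∧
        (((∃ t, s.1 = .app t) ∧ s'.1 = .unp) ∨ (s.1 = .unp ∧ s'.1 ≠ .unp)))

theorem next_ne {s : St H n} {v : Vt H n} (h : next s v) : v ≠ some s := by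
  rintro rfl
  simp only [next] at h
  rcases h with ⟨-, h⟩ | ⟨-, -, h⟩
  · omega
  · rcases h with ⟨⟨t, ht⟩, h⟩ | ⟨h1, h2⟩
    · rw [ht] at h
      cases h
    · exact h2 h1

/-- population tables -/
noncomputable def popT (s : St H n) (c : Lt (Vt H n) S T) : Set (List (Lt (Vt H n) S T)) :=
  if c = .E (some s) then {[.F]}
  else if c = act e s then rhsm tab term s.1 (e.symm s.2) else {[c]}

/-- transition tables -/
noncomputable def goT (s : St H n) (v : Vt H n) (c : Lt (Vt H n) S T) :
    Set (List (Lt (Vt H n) S T)) :=
  if c = .E (some s) then {[.F]}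
  else if c = act e s then {[.F]}
  else if c = .E v then {[.E (some s)]} else {[c]}

/-- erasing tables -/
noncomputable def eraT (v : Vt H n) (c : Lt (Vt H n) S T) : Set (List (Lt (Vt H n) S T)) :=
  if c = .E none then {[.F]}
  else if c = .E v then {[]} else {[c]}

/-- All tables of the simulating system. -/
def tabs : Set (Lt (Vt H n) S T → Set (List (Lt (Vt H n) S T))) :=
  Set.range (popT e tab term) ∪ (fun p : St H n × Vt H n => goT e p.1 p.2) '' {p | next p.1 p.2}
    ∪ Set.range eraT

theorem act_ne_E (s : St H n) (v : Vt H n) : (act e s : Lt (Vt H n) S T) ≠ .E v := by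
  obtain ⟨m, i⟩ := s
  cases m <;> simp [act, actm]

theorem act_ne_A (s : St H n) (v : T) : (act e s : Lt (Vt H n) S T) ≠ .A v := by
  obtain ⟨m, i⟩ := s
  cases m <;> simp [act, actm]

theorem act_ne_F (s : St H n) : (act e s : Lt (Vt H n) S T) ≠ .F := by
  obtain ⟨m, i⟩ := s
  cases m <;> simp [act, actm]

theorem tabs_finite [Finite H] [Finite S] [Finite T] :
    (tabs e tab term : Set (Lt (Vt H n) S T → _)).Finite := by
  have := finite_mode H
  have : Finite (St H n) := inferInstance
  have : Finite (Vt H n) := inferInstance
  refine Set.Finite.union (Set.Finite.union (Set.finite_range _) (Set.Finite.image _ ?_))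
    (Set.finite_range _)
  exact Set.toFinite _

theorem restricted [Finite H] [Finite S] [Finite T]
    (h : Lt (Vt H n) S T → Set (List (Lt (Vt H n) S T))) (hh : h ∈ tabs e tab term) :
    {c | h c ≠ {[c]}}.ncard ≤ 3 := by
  have := finite_mode H
  have : Finite (Lt (Vt H n) S T) := finite_lt _ _ _
  have key : ∀ a b c : Lt (Vt H n) S T, {x | h x ≠ {[x]}} ⊆ {a, b, c} →
      {c | h c ≠ {[c]}}.ncard ≤ 3 := by
    intro a b c hs
    refine (Set.ncard_le_ncard hs (Set.toFinite _)).trans ?_
    refine (Set.ncard_insert_le _ _).trans ?_
    have h1 := Set.ncard_insert_le b ({c} : Set (Lt (Vt H n) S T))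
    rw [Set.ncard_singleton] at h1
    omega
  rcases hh with (⟨s, rfl⟩ | ⟨⟨s, v⟩, -, rfl⟩) | ⟨v, rfl⟩
  · apply key (.E (some s)) (act e s) (act e s)
    intro x hx
    by_contra hc
    simp only [Set.mem_insert_iff, Set.mem_singleton_iff, not_or] at hc
    apply hx
    simp only [popT, if_neg hc.1, if_neg hc.2.1]
  · apply key (.E (some s)) (act e s) (.E v)
    intro x hx
    by_contra hc
    simp only [Set.mem_insert_iff, Set.mem_singleton_iff, not_or] at hc
    apply hx
    simp only [goT, if_neg hc.1, if_neg hc.2.1, if_neg hc.2.2]
  · apply key (.E none) (.E v) (.E v)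
    intro x hx
    by_contra hc
    simp only [Set.mem_insert_iff, Set.mem_singleton_iff, not_or] at hc
    apply hx
    simp only [eraT, if_neg hc.1, if_neg hc.2.1]

theorem image_finite (htab : ∀ t c, (tab t c).Finite)
    (h : Lt (Vt H n) S T → Set (List (Lt (Vt H n) S T))) (hh : h ∈ tabs e tab term)
    (c : Lt (Vt H n) S T) : (h c).Finite := by
  rcases hh with (⟨s, rfl⟩ | ⟨⟨s, v⟩, -, rfl⟩) | ⟨v, rfl⟩
  · simp only [popT]
    split_ifs
    · exact Set.finite_singleton _
    · obtain ⟨m, i⟩ := s
      cases m with
      | app t => exact (htab t _).image _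
      | unp => exact Set.finite_singleton _
      | fin =>
        simp only [rhsm]
        by_cases ha : ∃ a, term a = e.symm i
        · obtain ⟨a, ha⟩ := ha
          apply Set.Finite.subset (s := {[.X (e.symm i)], [.A a]}) (Set.toFinite _)
          rintro w (hw | ⟨a', ha', hw⟩)
          · simp [hw]
          · have : a' = a := term.injective (ha'.trans ha.symm)
            subst this
            simp [hw]
        · apply Set.Finite.subset (s := {[.X (e.symm i)]}) (Set.toFinite _)
          rintro w (hw | ⟨a', ha', hw⟩)
          · simp [hw]
          · exact absurd ⟨a', ha'⟩ ha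
    · exact Set.finite_singleton _
  · simp only [goT]
    split_ifs <;> exact Set.finite_singleton _
  · simp only [eraT]
    split_ifs <;> exact Set.finite_singleton _

theorem image_nonempty (htab : ∀ t c, (tab t c).Nonempty)
    (h : Lt (Vt H n) S T → Set (List (Lt (Vt H n) S T))) (hh : h ∈ tabs e tab term)
    (c : Lt (Vt H n) S T) : (h c).Nonempty := by
  rcases hh with (⟨s, rfl⟩ | ⟨⟨s, v⟩, -, rfl⟩) | ⟨v, rfl⟩
  · simp only [popT]
    split_ifs
    · exact Set.singleton_nonempty _
    · obtain ⟨m, i⟩ := s
      cases m with
      | app t => exact (htab t _).image _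
      | unp => exact Set.singleton_nonempty _
      | fin => exact ⟨_, Or.inl rfl⟩
    · exact Set.singleton_nonempty _
  · simp only [goT]
    split_ifs <;> exact Set.singleton_nonempty _
  · simp only [eraT]
    split_ifs <;> exact Set.singleton_nonempty _

/-- Step relation of the simulating system. -/
def Stp (z z' : List (Lt (Vt H n) S T)) : Prop := ∃ h ∈ tabs e tab term, Subst h z z'

/-- `z` is a word with control state `v` and content `x`. -/
def Conf (v : Vt H n) (x z : List (Lt (Vt H n) S T)) : Prop :=
  ∃ ctl : List (Vt H n), ctl.Nodup ∧ (∀ u, u ∈ ctl ↔ u ≠ v) ∧ z = ctl.map .E ++ x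

/-- Which blocks a letter may be represented by, in each mode. -/
def blk : Mode H → S → Set (List (Lt (Vt H n) S T))
  | .app t, c => {w | w = [.X c] ∨ ∃ v ∈ tab t c, w = v.map .Y}
  | .unp, c => {w | w = [.X c] ∨ w = [.Y c]}
  | .fin, c => {w | w = [.X c] ∨ ∃ a, term a = c ∧ w = [.A a]}

/-- The content words contain no control letters and no `F`. -/
def Content (x : List (Lt (Vt H n) S T)) : Prop := ∀ l ∈ x, l ≠ .F ∧ ∀ v, l ≠ .E v

theorem content_blk {m : Mode H} {c : S} {b : List (Lt (Vt H n) S T)}
    (hb : b ∈ blk tab term m c) : Content b := by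
  intro l hl
  cases m with
  | app t =>
    rcases hb with rfl | ⟨v, -, rfl⟩
    · simp only [List.mem_singleton] at hl
      subst hl
      simp
    · simp only [List.mem_map] at hl
      obtain ⟨a, -, rfl⟩ := hl
      simp
  | unp =>
    rcases hb with rfl | rfl <;> simp only [List.mem_singleton] at hl <;> subst hl <;> simp
  | fin =>
    rcases hb with rfl | ⟨v, -, rfl⟩ <;> simp only [List.mem_singleton] at hl <;> subst hl <;> simp

theorem content_subst {m : Mode H} {w : List S} {x : List (Lt (Vt H n) S T)}
    (h : Subst (blk tab term m) w x) : Content x := by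
  intro l hl
  obtain ⟨c, -, b, hb, hlb⟩ := Subst.mem_inv hl h
  exact content_blk tab term hb l hlb

-- `R` stands for reachability in the simulated system.
variable (R : List S → Prop)

/-- The invariant of a content word. -/
def Inv (s : St H n) (x : List (Lt (Vt H n) S T)) : Prop :=
  ∃ w, R w ∧ Subst (blk tab term s.1) w x ∧ ∀ c, (e c).val < s.2.val → actm s.1 c ∉ x

/-- Control letters. -/
def isE : Lt (Vt H n) S T → Bool
  | .E _ => true
  | _ => false

/-- The invariant of the words of the simulating system. -/
def P (z : List (Lt (Vt H n) S T)) : Prop :=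
  .F ∈ z ∨ (∃ s x, Conf (some s) x z ∧ Inv e tab term R s x) ∨
    (∃ u : List T, R (u.map term) ∧ z.filter (fun l => !(isE l)) = u.map .A ∧ .E none ∉ z)

theorem F_stable {h : Lt (Vt H n) S T → Set (List (Lt (Vt H n) S T))}
    (hh : h ∈ tabs e tab term) {z z' : List (Lt (Vt H n) S T)} (hz : .F ∈ z)
    (hs : Subst h z z') : .F ∈ z' := by
  refine Subst.mem_of hz ?_ hs
  rcases hh with (⟨s, rfl⟩ | ⟨⟨s, v⟩, -, rfl⟩) | ⟨v, rfl⟩
  · simp [popT, (act_ne_F e s).symm]
  · simp [goT, (act_ne_F e s).symm]
  · simp [eraT]

/-- A population step preserves the content invariant. -/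
theorem inv_pop {s : St H n} {x x' : List (Lt (Vt H n) S T)} (hx : Inv e tab term R s x)
    (hs : Subst (popT e tab term s) x x') : Inv e tab term R s x' := by
  obtain ⟨w, hw, hb, ha⟩ := hx
  refine ⟨w, hw, Subst.comp hb hs ?_, ?_⟩
  · intro c _ b hbc b' hbb'
    have hcont := content_blk tab term hbc
    obtain ⟨m, i⟩ := s
    cases m with
    | app t =>
      rcases hbc with rfl | ⟨v, hv, rfl⟩
      · rw [Subst.cons_iff] at hbb'
        obtain ⟨b1, y1, h1, h2, rfl⟩ := hbb'
        rw [Subst.nil_iff] at h2
        subst h2
        simp only [popT, act, actm, rhsm, reduceCtorEq, if_false] at h1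
        split_ifs at h1 with hc
        · simp only [Lt.X.injEq] at hc
          subst hc
          obtain ⟨v, hv, rfl⟩ := h1
          right
          exact ⟨v, hv, by simp⟩
        · simp only [Set.mem_singleton_iff] at h1
          subst h1
          left
          simp
      · rw [Subst.id_iff] at hbb'
        · subst hbb'
          exact Or.inr ⟨v, hv, rfl⟩
        · intro c hc
          simp only [List.mem_map] at hc
          obtain ⟨a, -, rfl⟩ := hc
          simp [popT, act, actm]
    | unp =>
      rcases hbc with rfl | rfl
      · rw [Subst.id_iff] at hbb'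
        · subst hbb'
          exact Or.inl rfl
        · intro c hc
          simp only [List.mem_singleton] at hc
          subst hc
          simp [popT, act, actm]
      · rw [Subst.cons_iff] at hbb'
        obtain ⟨b1, y1, h1, h2, rfl⟩ := hbb'
        rw [Subst.nil_iff] at h2
        subst h2
        simp only [popT, act, actm, rhsm, reduceCtorEq, if_false] at h1
        split_ifs at h1 with hc
        · simp only [Lt.Y.injEq] at hc
          subst hc
          left
          simpa using h1
        · right
          simpa using h1
    | fin =>
      rcases hbc with rfl | ⟨a, ha', rfl⟩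
      · rw [Subst.cons_iff] at hbb'
        obtain ⟨b1, y1, h1, h2, rfl⟩ := hbb'
        rw [Subst.nil_iff] at h2
        subst h2
        simp only [popT, act, actm, rhsm, reduceCtorEq, if_false] at h1
        split_ifs at h1 with hc
        · simp only [Lt.X.injEq] at hc
          subst hc
          simpa [blk] using h1
        · simp only [Set.mem_singleton_iff] at h1
          subst h1
          left
          simp
      · rw [Subst.id_iff] at hbb'
        · subst hbb'
          exact Or.inr ⟨a, ha', rfl⟩
        · intro c hc
          simp only [List.mem_singleton] at hc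
          subst hc
          simp [popT, act, actm]
  · intro c hc hmem
    obtain ⟨l, hl, b, hb', hlb⟩ := Subst.mem_inv hmem hs
    have h0 := ha c hc
    have hne : e.symm s.2 ≠ c := by
      rintro rfl
      simp at hc
    obtain ⟨m, i⟩ := s
    simp only [popT] at hb'
    split_ifs at hb' with h1 h2
    · simp only [Set.mem_singleton_iff] at hb'
      subst hb'
      cases m <;> simp [actm] at hlb
    · cases m with
      | app t =>
        obtain ⟨v, -, rfl⟩ := hb'
        simp [actm] at hlb
      | unp =>
        simp only [rhsm, Set.mem_singleton_iff] at hb'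
        subst hb'
        simp [actm] at hlb
      | fin =>
        rcases hb' with rfl | ⟨a, -, rfl⟩
        · simp only [actm, List.mem_singleton, Lt.X.injEq] at hlb
          exact hne hlb.symm
        · simp [actm] at hlb
    · simp only [Set.mem_singleton_iff] at hb'
      subst hb'
      simp only [List.mem_singleton] at hlb
      subst hlb
      exact h0 hl

theorem last_lt {s : St H n} (h : s.2.val + 1 = n) (c : S) : (e c).val ≤ s.2.val := by
  have := (e c).isLt
  omega

/-- A transition to an active state preserves the content invariant. -/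
theorem inv_go (hR : ∀ w w' t, R w → Subst (tab t) w w' → R w')
    {s s' : St H n} {x : List (Lt (Vt H n) S T)} (hx : Inv e tab term R s x)
    (hn : next s (some s')) (hact : act e s ∉ x) : Inv e tab term R s' x := by
  obtain ⟨w, hw, hb, ha⟩ := hx
  have hall : ∀ c, (e c).val ≤ s.2.val → actm s.1 c ∉ x := by
    intro c hc
    rcases Nat.lt_or_eq_of_le hc with hc | hc
    · exact ha c hc
    · have : c = e.symm s.2 := by
        rw [Equiv.eq_symm_apply]
        exact Fin.ext hc
      subst this
      exact hact
  simp only [next] at hn
  rcases hn with ⟨h1, h2⟩ | ⟨h1, h2, h3⟩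
  · refine ⟨w, hw, by rw [h1]; exact hb, ?_⟩
    intro c hc
    rw [h1]
    exact hall c (by omega)
  · have hall' : ∀ c, actm s.1 c ∉ x := fun c => hall c (last_lt e h1 c)
    rcases h3 with ⟨⟨t, ht⟩, hu⟩ | ⟨hu, hne⟩
    · rw [ht] at hb hall'
      have hb2 : Subst (fun c => (fun v => v.map .Y) '' tab t c) w x := by
        refine Subst.mono hb ?_
        rintro c - b (rfl | ⟨v, hv, rfl⟩) hb'
        · exact absurd (hb' _ (List.mem_singleton.2 rfl)) (hall' c)
        · exact ⟨v, hv, rfl⟩
      have hb3 : ∃ w', Subst (tab t) w w' ∧ x = w'.map .Y := by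
        clear hb hall' hall hact hw ha
        induction w generalizing x with
        | nil =>
          rw [Subst.nil_iff] at hb2
          exact ⟨[], Subst.nil_iff.2 rfl, by simp [hb2]⟩
        | cons c w ih =>
          rw [Subst.cons_iff] at hb2
          obtain ⟨b, y, ⟨v, hv, rfl⟩, hy, rfl⟩ := hb2
          obtain ⟨w', h1, rfl⟩ := ih hy
          exact ⟨v ++ w', Subst.cons_iff.2 ⟨v, w', hv, h1, rfl⟩, by simp⟩
      obtain ⟨w', hw', rfl⟩ := hb3
      refine ⟨w', hR w w' t hw hw', ?_, ?_⟩
      · rw [hu]
        apply Subst.map_of
        intro c _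
        exact Or.inr rfl
      · intro c hc
        omega
    · rw [hu] at hb hall'
      have hb2 : Subst (fun c => {[.X c]}) w x := by
        refine Subst.mono hb ?_
        rintro c - b (rfl | rfl) hb'
        · rfl
        · exact absurd (hb' _ (List.mem_singleton.2 rfl)) (hall' c)
      have hb3 : x = w.map .X := (Subst.map_iff (fun c => .X c) (by simp)).1 hb2
      refine ⟨w, hw, ?_, ?_⟩
      · rw [hb3]
        apply Subst.map_of
        intro c _
        obtain ⟨m, i⟩ := s'
        cases m with
        | app t => exact Or.inl rfl
        | unp => exact absurd rfl hne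
        | fin => exact Or.inl rfl
      · intro c hc
        omega

/-- The transition to the state `done`. -/
theorem inv_done {s : St H n} {x : List (Lt (Vt H n) S T)} (hx : Inv e tab term R s x)
    (hn : next s none) (hact : act e s ∉ x) : ∃ u : List T, R (u.map term) ∧ x = u.map .A := by
  obtain ⟨w, hw, hb, ha⟩ := hx
  have hall : ∀ c, (e c).val ≤ s.2.val → actm s.1 c ∉ x := by
    intro c hc
    rcases Nat.lt_or_eq_of_le hc with hc | hc
    · exact ha c hc
    · have : c = e.symm s.2 := by
        rw [Equiv.eq_symm_apply]
        exact Fin.ext hc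
      subst this
      exact hact
  simp only [next] at hn
  obtain ⟨hf, hl⟩ := hn
  have hall' : ∀ c, actm s.1 c ∉ x := fun c => hall c (last_lt e hl c)
  rw [hf] at hb hall'
  have hb2 : Subst (fun c => {w : List (Lt (Vt H n) S T) | ∃ a, term a = c ∧ w = [.A a]}) w x := by
    refine Subst.mono hb ?_
    rintro c - b (rfl | ⟨a, ha, rfl⟩) hb'
    · exact absurd (hb' _ (List.mem_singleton.2 rfl)) (hall' c)
    · exact ⟨a, ha, rfl⟩
  have hb3 : ∃ u : List T, w = u.map term ∧ x = u.map .A := by
    clear hb hall' hall hact hw ha
    induction w generalizing x with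
    | nil =>
      rw [Subst.nil_iff] at hb2
      exact ⟨[], by simp, by simp [hb2]⟩
    | cons c w ih =>
      rw [Subst.cons_iff] at hb2
      obtain ⟨b, y, ⟨a, ha, rfl⟩, hy, rfl⟩ := hb2
      obtain ⟨u, h1, rfl⟩ := ih hy
      exact ⟨a :: u, by simp [h1, ha], by simp⟩
  obtain ⟨u, rfl, rfl⟩ := hb3
  exact ⟨u, hw, rfl⟩

theorem inv_content {s : St H n} {x : List (Lt (Vt H n) S T)} (hx : Inv e tab term R s x) :
    Content x := by
  obtain ⟨w, hw, hb, ha⟩ := hx
  exact content_subst tab term hb

/-- In the last phase every step keeps the non-control letters. -/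
theorem filter_stable {f : Lt (Vt H n) S T → Set (List (Lt (Vt H n) S T))}
    {z z' : List (Lt (Vt H n) S T)} (hs : Subst f z z')
    (H : ∀ l ∈ z, ∀ b ∈ f l, .F ∈ b ∨
      (b.filter (fun l => !(isE l)) = [l].filter (fun l => !(isE l)) ∧ .E none ∉ b)) :
    .F ∈ z' ∨ (z'.filter (fun l => !(isE l)) = z.filter (fun l => !(isE l)) ∧ .E none ∉ z') := by
  induction z generalizing z' with
  | nil =>
    rw [Subst.nil_iff] at hs
    subst hs
    right
    simp
  | cons l z ih =>
    rw [Subst.cons_iff] at hs
    obtain ⟨b, y, hb, hy, rfl⟩ := hs
    rcases H l (by simp) b hb with h1 | ⟨h1, h2⟩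
    · left
      simp [h1]
    · rcases ih hy (fun l hl => H l (by simp [hl])) with h3 | ⟨h3, h4⟩
      · left
        simp [h3]
      · right
        refine ⟨?_, ?_⟩
        · have : l :: z = [l] ++ z := rfl
          rw [this, List.filter_append, List.filter_append, h1, h3]
        · simp [h2, h4]

/-- The invariant is preserved by all steps. -/
theorem P_step (hR : ∀ w w' t, R w → Subst (tab t) w w' → R w')
    {z z' : List (Lt (Vt H n) S T)} (hz : P e tab term R z) (hs : Stp e tab term z z') :
    P e tab term R z' := by
  obtain ⟨h, hh, hs⟩ := hs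
  rcases hz with hF | ⟨s, x, ⟨ctl, hnd, hctl, rfl⟩, hinv⟩ | ⟨u, hu, hfil, hnone⟩
  · exact Or.inl (F_stable e tab term hh hF hs)
  · have hcont := inv_content e tab term R hinv
    obtain ⟨y1, y2, rfl, hs1, hs2⟩ := Subst.append_inv hs
    rcases hh with (⟨s', rfl⟩ | ⟨⟨s', v⟩, hn, rfl⟩) | ⟨v, rfl⟩
    · by_cases hss : s' = s
      · subst hss
        right
        left
        refine ⟨s', y2, ⟨ctl, hnd, hctl, ?_⟩, inv_pop e tab term R hinv hs2⟩
        rw [Subst.id_iff] at hs1
        · rw [hs1]
        · intro c hc
          simp only [List.mem_map] at hc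
          obtain ⟨a, ha, rfl⟩ := hc
          have : a ≠ some s' := (hctl a).1 ha
          simp only [popT, Lt.E.injEq, if_neg this, if_neg (act_ne_E e s' a).symm]
      · left
        have : some s' ∈ ctl := (hctl _).2 (by simpa using hss)
        refine List.mem_append_left _ (Subst.mem_of (c := .E (some s')) ?_ ?_ hs1)
        · exact List.mem_map.2 ⟨_, this, rfl⟩
        · simp [popT]
    · simp only [Set.mem_ofPred_eq] at hn
      by_cases hss : s' = s
      · subst hss
        by_cases hact : act e s' ∈ x
        · left
          refine List.mem_append_right _ (Subst.mem_of hact ?_ hs2)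
          simp [goT]
        · have hx2 : y2 = x := by
            rw [Subst.id_iff] at hs2
            · exact hs2
            · intro c hc
              have h1 := hcont c hc
              have h2 : c ≠ act e s' := fun h => hact (h ▸ hc)
              simp only [goT, if_neg (h1.2 _), if_neg h2]
          subst hx2
          have hne := next_ne hn
          have hy1 : y1 = (ctl.map (fun a => if a = v then some s' else a)).map .E := by
            rw [List.map_map]
            have := (Subst.map_iff (h := goT e s' v) (x := ctl.map .E) (y := y1)
              (fun l => if l = (.E v : Lt (Vt H n) S T) then .E (some s') else l) ?_).1 hs1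
            · rw [this, List.map_map]
              apply List.map_congr_left
              intro a ha
              simp only [Function.comp, Lt.E.injEq]
              split_ifs <;> rfl
            · intro c hc
              simp only [List.mem_map] at hc
              obtain ⟨a, ha, rfl⟩ := hc
              have : a ≠ some s' := (hctl a).1 ha
              simp only [goT, Lt.E.injEq, if_neg this, if_neg (act_ne_E e s' a).symm]
              split_ifs <;> rfl
          subst hy1
          have hcf : Conf v y2 ((ctl.map (fun a => if a = v then some s' else a)).map .E ++ y2) := by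
            refine ⟨_, ?_, ?_, rfl⟩
            · refine List.Nodup.map_on ?_ hnd
              intro a ha b hb hab
              have h1 := (hctl a).1 ha
              have h2 := (hctl b).1 hb
              split_ifs at hab with h3 h4 h4
              · rw [h3, h4]
              · exact absurd hab.symm h2
              · exact absurd hab h1
              · exact hab
            · intro b
              simp only [List.mem_map]
              constructor
              · rintro ⟨a, ha, rfl⟩
                have h1 := (hctl a).1 ha
                split_ifs with h3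
                · exact hne.symm
                · exact h3
              · intro hb
                by_cases hbs : b = some s'
                · exact ⟨v, (hctl v).2 hne, by simp [hbs]⟩
                · exact ⟨b, (hctl b).2 hbs, by simp [hb]⟩
          cases v with
          | some s'' =>
            right
            left
            exact ⟨s'', y2, hcf, inv_go e tab term R hR hinv hn hact⟩
          | none =>
            right
            right
            obtain ⟨u, hu, rfl⟩ := inv_done e tab term R hinv hn hact
            refine ⟨u, hu, ?_, ?_⟩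
            · rw [List.filter_append]
              have h1 : List.filter (fun l => !(isE l))
                  ((ctl.map (fun a => if a = none then some s' else a)).map
                    (.E : Vt H n → Lt (Vt H n) S T)) = [] := by
                rw [List.filter_eq_nil_iff]
                intro a ha
                simp only [List.mem_map] at ha
                obtain ⟨b, -, rfl⟩ := ha
                simp [isE]
              have h2 : List.filter (fun l => !(isE l)) (u.map (.A : T → Lt (Vt H n) S T))
                  = u.map .A := by
                rw [List.filter_eq_self]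
                intro a ha
                simp only [List.mem_map] at ha
                obtain ⟨b, -, rfl⟩ := ha
                simp [isE]
              rw [h1, h2]
              rfl
            · obtain ⟨ctl', -, h2, h3⟩ := hcf
              simp only [List.mem_append, List.mem_map, not_or, not_exists, not_and,
                Lt.E.injEq, reduceCtorEq, not_false_eq_true, implies_true, and_true]
              rintro a ⟨b, -, hb⟩ h4
              rw [h4] at hb
              split_ifs at hb with h5
              exact h5 hb
      · left
        have : some s' ∈ ctl := (hctl _).2 (by simpa using hss)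
        refine List.mem_append_left _ (Subst.mem_of (c := .E (some s')) ?_ ?_ hs1)
        · exact List.mem_map.2 ⟨_, this, rfl⟩
        · simp [goT]
    · left
      have : (none : Vt H n) ∈ ctl := (hctl _).2 (by simp)
      refine List.mem_append_left _ (Subst.mem_of (c := .E none) ?_ ?_ hs1)
      · exact List.mem_map.2 ⟨_, this, rfl⟩
      · simp [eraT]
  · have key := filter_stable hs (f := h) ?_
    · rcases key with h1 | ⟨h1, h2⟩
      · exact Or.inl h1
      · exact Or.inr (Or.inr ⟨u, hu, by rw [h1, hfil], h2⟩)
    · intro l hl b hb
      have hlA : (∃ v, v ≠ none ∧ l = .E v) ∨ ∃ a, l = .A a := by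
        by_cases hE : isE l = true
        · left
          cases l with
          | E v => exact ⟨v, fun h => hnone (h ▸ hl), rfl⟩
          | _ => simp [isE] at hE
        · right
          have : l ∈ z.filter (fun l => !(isE l)) := by
            rw [List.mem_filter]
            exact ⟨hl, by simpa using hE⟩
          rw [hfil, List.mem_map] at this
          obtain ⟨a, -, rfl⟩ := this
          exact ⟨a, rfl⟩
      rcases hlA with ⟨v, hv, rfl⟩ | ⟨a, rfl⟩
      · rcases hh with (⟨s', rfl⟩ | ⟨⟨s', v'⟩, hn, rfl⟩) | ⟨v', rfl⟩
        · simp only [popT, if_neg (act_ne_E e s' v).symm] at hb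
          split_ifs at hb
          · left
            simp only [Set.mem_singleton_iff] at hb
            simp [hb]
          · right
            simp only [Set.mem_singleton_iff] at hb
            subst hb
            simp [hv.symm]
        · simp only [goT, if_neg (act_ne_E e s' v).symm] at hb
          split_ifs at hb
          · left
            simp only [Set.mem_singleton_iff] at hb
            simp [hb]
          · right
            simp only [Set.mem_singleton_iff] at hb
            subst hb
            simp [isE]
          · right
            simp only [Set.mem_singleton_iff] at hb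
            subst hb
            simp [hv.symm]
        · simp only [eraT] at hb
          split_ifs at hb
          · left
            simp only [Set.mem_singleton_iff] at hb
            simp [hb]
          · right
            simp only [Set.mem_singleton_iff] at hb
            subst hb
            simp [isE]
          · right
            simp only [Set.mem_singleton_iff] at hb
            subst hb
            simp [hv.symm]
      · right
        have : b = [.A a] := by
          rcases hh with (⟨s', rfl⟩ | ⟨⟨s', v'⟩, hn, rfl⟩) | ⟨v', rfl⟩
          · simpa [popT, (act_ne_A e s' a).symm] using hb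
          · simpa [goT, (act_ne_A e s' a).symm] using hb
          · simpa [eraT] using hb
        subst this
        simp

/-- Terminal words satisfying the invariant come from terminal words of the simulated system. -/
theorem P_final {u : List T} (h : P e tab term R (u.map .A)) : R (u.map term) := by
  rcases h with hF | ⟨s, x, ⟨ctl, hnd, hctl, hz⟩, -⟩ | ⟨u', hu, hfil, hnone⟩
  · simp at hF
  · exfalso
    have h1 : (.E none : Lt (Vt H n) S T) ∈ u.map (.A : T → Lt (Vt H n) S T) := by
      rw [hz]
      refine List.mem_append_left _ (List.mem_map.2 ⟨none, (hctl _).2 (by simp), rfl⟩)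
    simp at h1
  · have h2 : List.filter (fun l => !(isE l)) (u.map (.A : T → Lt (Vt H n) S T))
        = u.map .A := by
      rw [List.filter_eq_self]
      intro a ha
      simp only [List.mem_map] at ha
      obtain ⟨b, -, rfl⟩ := ha
      simp [isE]
    rw [h2] at hfil
    have : u = u' := List.map_injective_iff.2 (fun a b h => by simpa using h) hfil
    rw [this]
    exact hu

/-! ### Completeness -/

/-- Reachability in the simulating system from a start word. -/
def Rch (z0 z : List (Lt (Vt H n) S T)) : Prop :=
  Relation.ReflTransGen (Stp e tab term) z0 z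

/-- Reachability of a configuration. -/
def CR (z0 : List (Lt (Vt H n) S T)) (v : Vt H n) (x : List (Lt (Vt H n) S T)) : Prop :=
  ∃ z, Rch e tab term z0 z ∧ Conf v x z

theorem CR_pop {z0 : List (Lt (Vt H n) S T)} {s : St H n} {x x' : List (Lt (Vt H n) S T)}
    (h : CR e tab term z0 (some s) x) (hs : Subst (popT e tab term s) x x') :
    CR e tab term z0 (some s) x' := by
  obtain ⟨z, hz, ctl, hnd, hctl, rfl⟩ := h
  refine ⟨ctl.map .E ++ x', hz.tail ⟨popT e tab term s, Or.inl (Or.inl ⟨s, rfl⟩), ?_⟩,
    ctl, hnd, hctl, rfl⟩
  refine Subst.append ?_ hs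
  rw [Subst.id_iff]
  intro c hc
  simp only [List.mem_map] at hc
  obtain ⟨a, ha, rfl⟩ := hc
  have : a ≠ some s := (hctl a).1 ha
  simp only [popT, Lt.E.injEq, if_neg this, if_neg (act_ne_E e s a).symm]

theorem CR_go {z0 : List (Lt (Vt H n) S T)} {s : St H n} {v : Vt H n}
    {x : List (Lt (Vt H n) S T)}
    (h : CR e tab term z0 (some s) x) (hn : next s v) (hcont : Content x)
    (hact : act e s ∉ x) : CR e tab term z0 v x := by
  obtain ⟨z, hz, ctl, hnd, hctl, rfl⟩ := h
  have hne := next_ne hn
  refine ⟨(ctl.map (fun a => if a = v then some s else a)).map .E ++ x,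
    hz.tail ⟨goT e s v, Or.inl (Or.inr ⟨(s, v), hn, rfl⟩), ?_⟩, _, ?_, ?_, rfl⟩
  · refine Subst.append ?_ ?_
    · rw [List.map_map]
      rw [Subst.map_iff (fun l => if l = (.E v : Lt (Vt H n) S T) then .E (some s) else l)]
      · rw [List.map_map]
        apply List.map_congr_left
        intro a ha
        simp only [Function.comp, Lt.E.injEq]
        split_ifs <;> rfl
      · intro c hc
        simp only [List.mem_map] at hc
        obtain ⟨a, ha, rfl⟩ := hc
        have : a ≠ some s := (hctl a).1 ha
        simp only [goT, Lt.E.injEq, if_neg this, if_neg (act_ne_E e s a).symm]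
        split_ifs <;> rfl
    · rw [Subst.id_iff]
      intro c hc
      have h1 := hcont c hc
      have h2 : c ≠ act e s := fun h => hact (h ▸ hc)
      simp only [goT, if_neg (h1.2 _), if_neg h2]
  · refine List.Nodup.map_on ?_ hnd
    intro a ha b hb hab
    have h1 := (hctl a).1 ha
    have h2 := (hctl b).1 hb
    split_ifs at hab with h3 h4 h4
    · rw [h3, h4]
    · exact absurd hab.symm h2
    · exact absurd hab h1
    · exact hab
  · intro b
    simp only [List.mem_map]
    constructor
    · rintro ⟨a, ha, rfl⟩
      have h1 := (hctl a).1 ha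
      split_ifs with h3
      · exact hne.symm
      · exact h3
    · intro hb
      by_cases hbs : b = some s
      · exact ⟨v, (hctl v).2 hne, by simp [hbs]⟩
      · exact ⟨b, (hctl b).2 hbs, by simp [hb]⟩

/-- A family of content words, one for each position of a pass. -/
theorem CR_pass {D : Type} {z0 : List (Lt (Vt H n) S T)} (m : Mode H) (l : List D)
    (key : D → S) (f g : D → List (Lt (Vt H n) S T))
    (h1 : ∀ p ∈ l, ∀ i : Fin n, e (key p) = i → Subst (popT e tab term (m, i)) (f p) (g p))
    (h2 : ∀ p ∈ l, ∀ i : Fin n, e (key p) ≠ i →
      Subst (popT e tab term (m, i)) (f p) (f p))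
    (h3 : ∀ p ∈ l, ∀ i : Fin n, Subst (popT e tab term (m, i)) (g p) (g p))
    (h4 : ∀ p ∈ l, ∀ c, actm m c ∈ f p → c = key p)
    (h5 : ∀ p ∈ l, ∀ c, actm m c ∉ g p)
    (h6 : ∀ p ∈ l, Content (f p) ∧ Content (g p))
    (hn : 0 < n)
    (h0 : CR e tab term z0 (some (m, ⟨0, hn⟩)) (l.flatMap f)) :
    CR e tab term z0 (some (m, ⟨n - 1, by omega⟩)) (l.flatMap g) := by
  have main : ∀ i : ℕ, (hi : i < n) → CR e tab term z0 (some (m, ⟨i, hi⟩))
      (l.flatMap (fun p => if (e (key p)).val < i + 1 then g p else f p)) := by
    intro i
    induction i with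
    | zero =>
      intro hi
      refine CR_pop e tab term h0 ?_
      apply Subst.flatMap_of
      intro p hp
      split_ifs with hc
      · exact h1 p hp _ (Fin.ext (by simpa using hc))
      · exact h2 p hp _ (fun h => hc (by simp [h]))
    | succ i ih =>
      intro hi
      have h7 := ih (by omega)
      have h8 : CR e tab term z0 (some (m, ⟨i + 1, hi⟩))
          (l.flatMap (fun p => if (e (key p)).val < i + 1 then g p else f p)) := by
        refine CR_go e tab term h7 ?_ ?_ ?_
        · left
          exact ⟨rfl, rfl⟩
        · intro c hc
          simp only [List.mem_flatMap] at hc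
          obtain ⟨p, hp, hc⟩ := hc
          split_ifs at hc
          · exact (h6 p hp).2 c hc
          · exact (h6 p hp).1 c hc
        · intro hc
          simp only [List.mem_flatMap] at hc
          obtain ⟨p, hp, hc⟩ := hc
          split_ifs at hc with h9
          · exact h5 p hp _ hc
          · have := h4 p hp _ hc
            simp only [← this] at h9
            apply h9
            simp
      refine CR_pop e tab term h8 ?_
      apply Subst.flatMap_of
      intro p hp
      by_cases hc : (e (key p)).val < i + 1
      · rw [if_pos hc, if_pos (by omega)]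
        exact h3 p hp _
      · rw [if_neg hc]
        by_cases hc2 : (e (key p)).val < i + 1 + 1
        · rw [if_pos hc2]
          exact h1 p hp _ (Fin.ext (by simp; omega))
        · rw [if_neg hc2]
          exact h2 p hp _ (fun h => hc2 (by simp [h]))
  have h9 := main (n - 1) (by omega)
  have h10 : (l.flatMap (fun p => if (e (key p)).val < n - 1 + 1 then g p else f p))
      = l.flatMap g := by
    apply List.flatMap_congr
    intro p hp
    rw [if_pos]
    have := (e (key p)).isLt
    omega
  rw [h10] at h9
  exact h9

theorem subst_pop_single {s : St H n} {c : Lt (Vt H n) S T} (h1 : ∀ v, c ≠ .E v)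
    (h2 : c ≠ act e s) : Subst (popT e tab term s) [c] [c] := by
  rw [Subst.id_iff]
  intro d hd
  simp only [List.mem_singleton] at hd
  subst hd
  simp only [popT, if_neg (h1 _), if_neg h2]

/-- Simulation of one derivation step. -/
theorem CR_step {z0 : List (Lt (Vt H n) S T)} (hn : 0 < n) {w w' : List S} (t : H)
    (h0 : CR e tab term z0 (some (.unp, ⟨n - 1, by omega⟩)) (w.map .X))
    (hs : Subst (tab t) w w') :
    CR e tab term z0 (some (.unp, ⟨n - 1, by omega⟩)) (w'.map .X) := by
  obtain ⟨ws, hws, rfl⟩ := hs
  -- start of the pass
  have h1 : CR e tab term z0 (some (.app t, ⟨0, hn⟩)) (w.map .X) := by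
    refine CR_go e tab term h0 ?_ ?_ ?_
    · right
      refine ⟨?_, rfl, Or.inr ⟨rfl, by simp⟩⟩
      simp
      omega
    · intro l hl
      simp only [List.mem_map] at hl
      obtain ⟨a, -, rfl⟩ := hl
      simp
    · simp [act, actm]
  have hlen : w.length = ws.length := hws.length_eq
  have hzip : ∀ p ∈ w.zip ws, p.2 ∈ tab t p.1 := by
    intro p hp
    exact (List.forall₂_iff_zip.1 hws).2 hp
  have e1 : w.map (.X : S → Lt (Vt H n) S T) = (w.zip ws).flatMap (fun p => [.X p.1]) := by
    have : w = (w.zip ws).map Prod.fst := by
      rw [List.map_fst_zip hlen.le]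
    conv_lhs => rw [this]
    rw [List.map_map, List.map_eq_flatMap]
    rfl
  rw [e1] at h1
  have h2 := CR_pass e tab term (.app t) (w.zip ws) Prod.fst (fun p => [.X p.1])
    (fun p => p.2.map .Y) ?_ ?_ ?_ ?_ ?_ ?_ hn h1
  · have e2 : (w.zip ws).flatMap (fun p => p.2.map (.Y : S → Lt (Vt H n) S T))
        = ws.flatten.flatMap (fun c => [.Y c]) := by
      have h4 : ws = (w.zip ws).map Prod.snd := by
        rw [List.map_snd_zip hlen.ge]
      conv_rhs => rw [h4]
      rw [← List.map_eq_flatMap, List.map_flatten, List.map_map, List.flatMap_def]
      rfl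
    rw [e2] at h2
    have h3 : CR e tab term z0 (some (.unp, ⟨0, hn⟩)) (ws.flatten.flatMap (fun c => [.Y c])) := by
      refine CR_go e tab term h2 ?_ ?_ ?_
      · right
        refine ⟨?_, rfl, Or.inl ⟨⟨t, rfl⟩, rfl⟩⟩
        simp
        omega
      · intro l hl
        simp only [List.mem_flatMap, List.mem_singleton] at hl
        obtain ⟨a, -, rfl⟩ := hl
        simp
      · simp [act, actm]
    have h5 := CR_pass e tab term (.unp) ws.flatten id (fun p => [.Y p])
      (fun p => [.X p]) ?_ ?_ ?_ ?_ ?_ ?_ hn h3
    · rw [← List.map_eq_flatMap] at h5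
      exact h5
    · intro p _ i hi
      rw [Subst.cons_iff]
      refine ⟨[.X p], [], ?_, Subst.nil_iff.2 rfl, by simp⟩
      simp only [id] at hi
      subst hi
      simp [popT, act, actm, rhsm]
    · intro p _ i hi
      apply subst_pop_single
      · simp
      · simp only [act, actm, ne_eq, Lt.Y.injEq]
        rintro rfl
        simp at hi
    · intro p _ i
      apply subst_pop_single
      · simp
      · simp [act, actm]
    · intro p _ c hc
      simpa [actm] using hc
    · intro p _ c hc
      simp [actm] at hc
    · intro p _
      constructor <;> intro l hl <;> simp only [List.mem_singleton] at hl <;> subst hl <;> simp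
  · intro p hp i hi
    rw [Subst.cons_iff]
    refine ⟨p.2.map .Y, [], ?_, Subst.nil_iff.2 rfl, by simp⟩
    subst hi
    simp only [popT, act, actm, rhsm, Equiv.symm_apply_apply, reduceCtorEq, if_false, if_true]
    exact ⟨_, hzip p hp, rfl⟩
  · intro p _ i hi
    apply subst_pop_single
    · simp
    · simp only [act, actm, ne_eq, Lt.X.injEq]
      intro h
      apply hi
      rw [h]
      simp
  · intro p _ i
    rw [Subst.id_iff]
    intro d hd
    simp only [List.mem_map] at hd
    obtain ⟨a, -, rfl⟩ := hd
    simp [popT, act, actm]
  · intro p _ c hc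
    simpa [actm] using hc
  · intro p _ c hc
    simp [actm] at hc
  · intro p _
    constructor
    · intro l hl
      simp only [List.mem_singleton] at hl
      subst hl
      simp
    · intro l hl
      simp only [List.mem_map] at hl
      obtain ⟨a, -, rfl⟩ := hl
      simp

/-- Final pass. -/
theorem CR_final {z0 : List (Lt (Vt H n) S T)} (hn : 0 < n) {u : List T}
    (h0 : CR e tab term z0 (some (.unp, ⟨n - 1, by omega⟩)) ((u.map term).map .X)) :
    CR e tab term z0 none (u.map .A) := by
  have h1 : CR e tab term z0 (some (.fin, ⟨0, hn⟩)) ((u.map term).map .X) := by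
    refine CR_go e tab term h0 ?_ ?_ ?_
    · right
      refine ⟨?_, rfl, Or.inr ⟨rfl, by simp⟩⟩
      simp
      omega
    · intro l hl
      simp only [List.mem_map] at hl
      obtain ⟨a, -, rfl⟩ := hl
      simp
    · simp [act, actm]
  have e1 : (u.map term).map (.X : S → Lt (Vt H n) S T) = u.flatMap (fun p => [.X (term p)]) := by
    rw [List.map_map, List.map_eq_flatMap]
    rfl
  rw [e1] at h1
  have h2 := CR_pass e tab term (.fin) u term (fun p => [.X (term p)])
    (fun p => [.A p]) ?_ ?_ ?_ ?_ ?_ ?_ hn h1
  · rw [← List.map_eq_flatMap] at h2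
    refine CR_go e tab term h2 ?_ ?_ ?_
    · refine ⟨rfl, ?_⟩
      simp
      omega
    · intro l hl
      simp only [List.mem_map] at hl
      obtain ⟨a, -, rfl⟩ := hl
      simp
    · simp [act, actm]
  · intro p _ i hi
    rw [Subst.cons_iff]
    refine ⟨[.A p], [], ?_, Subst.nil_iff.2 rfl, by simp⟩
    subst hi
    simp [popT, act, actm, rhsm]
  · intro p _ i hi
    apply subst_pop_single
    · simp
    · simp only [act, actm, ne_eq, Lt.X.injEq]
      intro h
      apply hi
      rw [h]
      simp
  · intro p _ i
    apply subst_pop_single
    · simp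
    · simp [act, actm]
  · intro p _ c hc
    simpa [actm] using hc
  · intro p _ c hc
    simp [actm] at hc
  · intro p _
    constructor <;> intro l hl <;> simp only [List.mem_singleton] at hl <;> subst hl <;> simp

/-- Erasing the control letters. -/
theorem Rch_erase {z0 : List (Lt (Vt H n) S T)} {u : List T} (ctl : List (Vt H n))
    (hnd : ctl.Nodup) (hnone : none ∉ ctl) (h : Rch e tab term z0 (ctl.map .E ++ u.map .A)) :
    Rch e tab term z0 (u.map .A) := by
  induction ctl with
  | nil => simpa using h
  | cons v ctl ih =>
    rw [List.nodup_cons] at hnd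
    refine ih hnd.2 (fun h => hnone (by simp [h])) (h.tail ⟨eraT v, Or.inr ⟨v, rfl⟩, ?_⟩)
    have hv : v ≠ none := fun h => hnone (by simp [h])
    rw [List.map_cons, List.cons_append, Subst.cons_iff]
    refine ⟨[], ctl.map .E ++ u.map .A, ?_, ?_, by simp⟩
    · simp [eraT, hv]
    · rw [Subst.id_iff]
      intro c hc
      rcases List.mem_append.1 hc with hc | hc
      · simp only [List.mem_map] at hc
        obtain ⟨a, ha, rfl⟩ := hc
        have h1 : a ≠ none := fun h => hnone (by simp [← h, ha])
        have h2 : a ≠ v := fun h => hnd.1 (h ▸ ha)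
        simp [eraT, h1, h2]
      · simp only [List.mem_map] at hc
        obtain ⟨a, ha, rfl⟩ := hc
        simp [eraT]


end

end Hole

end Pool.Agent.P4de4a9
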