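import Pool.Agent.Lib.P4de4a9.Checker

/-!
# `{aⁿbⁿcⁿ}` is not generated by a 1-restricted ET0L system
-/

namespace Pool.Agent.P4de4a9

open Classical

/-- The word `aⁿbⁿcⁿ`. -/
def wd (n : ℕ) : List (Fin 3) :=
  List.replicate n 0 ++ (List.replicate n 1 ++ List.replicate n 2)

theorem count_wd (n : ℕ) (k : Fin 3) : (wd n).count k = n := by
  fin_cases k <;> simp [wd, List.count_replicate]

theorem length_wd (n : ℕ) : (wd n).length = 3 * n := by
  simp [wd]; ring

theorem sorted_wd (n : ℕ) : (wd n).Pairwise (· ≤ ·) := by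
  simp only [wd, List.pairwise_append, List.mem_replicate, List.mem_append]
  refine ⟨?_, ⟨?_, ?_, ?_⟩, ?_⟩
  · exact List.pairwise_replicate.2 (Or.inr le_rfl)
  · exact List.pairwise_replicate.2 (Or.inr le_rfl)
  · exact List.pairwise_replicate.2 (Or.inr le_rfl)
  · rintro a ⟨-, rfl⟩ b ⟨-, rfl⟩
    decide
  · rintro a ⟨-, rfl⟩ b (⟨-, rfl⟩ | ⟨-, rfl⟩) <;> decide

/-- A factor containing both `a` and `c` contains all `b`. -/
theorem wd_factor {n : ℕ} {α σ β : List (Fin 3)} (h : wd n = α ++ (σ ++ β))
    (h0 : 0 < σ.count 0) (h2 : 0 < σ.count 2) : (1 : Fin 3) ∉ α ∧ (1 : Fin 3) ∉ β := by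
  have hs := sorted_wd n
  rw [h, List.pairwise_append, List.pairwise_append] at hs
  obtain ⟨-, ⟨-, -, h12⟩, h3⟩ := hs
  constructor
  · intro h1
    have := h3 1 h1 0 (by simp [List.count_pos_iff.1 h0])
    revert this; decide
  · intro h1
    have := h12 2 (List.count_pos_iff.1 h2) 1 h1
    revert this; decide

/-- If a `b` lies outside a factor then the factor is determined by its context. -/
theorem wd_unique {n m : ℕ} {α σ τ β : List (Fin 3)} (h : wd n = α ++ (σ ++ β))
    (h' : wd m = α ++ (τ ++ β)) (h1 : (1 : Fin 3) ∈ α ∨ (1 : Fin 3) ∈ β) : σ = τ := by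
  have hnm : n = m := by
    rcases h1 with h1 | h1
    · have key : ∀ (k : ℕ) (ρ : List (Fin 3)), wd k = α ++ (ρ ++ β) → k = α.count 0 := by
        intro k ρ hk
        have hs := sorted_wd k
        rw [hk, List.pairwise_append] at hs
        obtain ⟨-, -, h3⟩ := hs
        have : (ρ ++ β).count 0 = 0 := by
          rw [List.count_eq_zero]
          intro h0
          have := h3 1 h1 0 h0
          revert this; decide
        have h4 := count_wd k 0
        rw [hk, List.count_append, this] at h4
        omega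
      rw [key n σ h, key m τ h']
    · have key : ∀ (k : ℕ) (ρ : List (Fin 3)), wd k = α ++ (ρ ++ β) → k = β.count 2 := by
        intro k ρ hk
        have hs := sorted_wd k
        rw [hk, ← List.append_assoc, List.pairwise_append] at hs
        obtain ⟨-, -, h3⟩ := hs
        have : (α ++ ρ).count 2 = 0 := by
          rw [List.count_eq_zero]
          intro h0
          have := h3 2 h0 1 h1
          revert this; decide
        have h4 := count_wd k 2
        rw [hk, ← List.append_assoc, List.count_append, this] at h4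
        omega
      rw [key n σ h, key m τ h']
  subst hnm
  rw [h] at h'
  simpa using h'

/-! ### Control words -/

section Control

variable {S T : Type}

/-- Rewriting along a control word. -/
def Run : List (S → Set (List S)) → List S → List S → Prop
  | [], x, y => y = x
  | h :: s, x, y => ∃ z, Subst h x z ∧ Run s z y

theorem Run.append {s : List (S → Set (List S))} {x x' y y' : List S}
    (h : Run s x y) (h' : Run s x' y') : Run s (x ++ x') (y ++ y') := by
  induction s generalizing x x' with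
  | nil => rw [h, h']; rfl
  | cons g s ih =>
    obtain ⟨z, h1, h2⟩ := h
    obtain ⟨z', h1', h2'⟩ := h'
    exact ⟨z ++ z', h1.append h1', ih h2 h2'⟩

theorem Run.append_inv {s : List (S → Set (List S))} {x x' z : List S}
    (h : Run s (x ++ x') z) : ∃ y y', z = y ++ y' ∧ Run s x y ∧ Run s x' y' := by
  induction s generalizing x x' with
  | nil => exact ⟨x, x', h, rfl, rfl⟩
  | cons g s ih =>
    obtain ⟨w, h1, h2⟩ := h
    obtain ⟨w1, w2, rfl, h3, h4⟩ := h1.append_inv
    obtain ⟨y, y', rfl, h5, h6⟩ := ih h2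
    exact ⟨y, y', rfl, ⟨w1, h3, h5⟩, ⟨w2, h4, h6⟩⟩

theorem Run.nil_iff {s : List (S → Set (List S))} {y : List S} : Run s [] y ↔ y = [] := by
  induction s with
  | nil => rfl
  | cons g s ih =>
    constructor
    · rintro ⟨z, h1, h2⟩
      rw [Subst.nil_iff] at h1
      subst h1
      exact ih.1 h2
    · intro h
      exact ⟨[], Subst.nil_iff.2 rfl, ih.2 h⟩

theorem Run.ctl_append {s s' : List (S → Set (List S))} {x y : List S} :
    Run (s ++ s') x y ↔ ∃ z, Run s x z ∧ Run s' z y := by
  induction s generalizing x with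
  | nil =>
    constructor
    · intro h
      exact ⟨x, rfl, h⟩
    · rintro ⟨z, h1, h2⟩
      rw [h1] at h2
      exact h2
  | cons g s ih =>
    constructor
    · rintro ⟨z, h1, h2⟩
      obtain ⟨w, h3, h4⟩ := ih.1 h2
      exact ⟨w, ⟨z, h1, h3⟩, h4⟩
    · rintro ⟨w, ⟨z, h1, h3⟩, h4⟩
      exact ⟨z, h1, ih.2 ⟨w, h3, h4⟩⟩

theorem Run.fixed {s : List (S → Set (List S))} {x : List S}
    (h : ∀ g ∈ s, ∀ c ∈ x, g c = {[c]}) : Run s x x := by
  induction s with
  | nil => rfl
  | cons g s ih =>
    exact ⟨x, (Subst.id_iff (h g (by simp))).2 rfl, ih (fun g' hg' => h g' (by simp [hg']))⟩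

theorem Subst.length_le {h : S → Set (List S)} {K : ℕ} {x y : List S}
    (hK : ∀ c, ∀ w ∈ h c, w.length ≤ K) (hs : Subst h x y) : y.length ≤ x.length * K := by
  induction x generalizing y with
  | nil =>
    rw [Subst.nil_iff] at hs
    simp [hs]
  | cons c x ih =>
    rw [Subst.cons_iff] at hs
    obtain ⟨w, y1, hw, hy, rfl⟩ := hs
    have h1 := hK c w hw
    have h2 := ih hy
    simp only [List.length_append, List.length_cons]
    nlinarith

theorem Run.length_le {s : List (S → Set (List S))} {K : ℕ} {x y : List S}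
    (hK : ∀ h ∈ s, ∀ c, ∀ w ∈ h c, w.length ≤ K) (hs : Run s x y) :
    y.length ≤ x.length * K ^ s.length := by
  induction s generalizing x with
  | nil =>
    rw [show y = x from hs]
    simp
  | cons g s ih =>
    obtain ⟨z, h1, h2⟩ := hs
    have h3 := Subst.length_le (hK g (by simp)) h1
    have h4 := ih (fun h hh => hK h (by simp [hh])) h2
    calc y.length ≤ z.length * K ^ s.length := h4
      _ ≤ (x.length * K) * K ^ s.length := Nat.mul_le_mul_right _ h3
      _ = x.length * K ^ (g :: s).length := by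
        rw [List.length_cons, pow_succ]; ring

end Control

section One

variable (G : ET0L (Fin 3))

/-- `x` yields the terminal word `w` along `s`. -/
def RunT (s : List (G.Letter → Set (List G.Letter))) (x : List G.Letter)
    (w : List (Fin 3)) : Prop :=
  Run s x (w.map G.terminal)

variable {G}

theorem RunT.append {s : List (G.Letter → Set (List G.Letter))} {x x' : List G.Letter}
    {w w' : List (Fin 3)} (h : RunT G s x w) (h' : RunT G s x' w') :
    RunT G s (x ++ x') (w ++ w') := by
  unfold RunT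
  rw [List.map_append]
  exact Run.append h h'

theorem RunT.append_inv {s : List (G.Letter → Set (List G.Letter))} {x x' : List G.Letter}
    {w : List (Fin 3)} (h : RunT G s (x ++ x') w) :
    ∃ v v', w = v ++ v' ∧ RunT G s x v ∧ RunT G s x' v' := by
  obtain ⟨y, y', h1, h2, h3⟩ := Run.append_inv h
  obtain ⟨v, v', rfl, rfl, rfl⟩ := List.map_eq_append_iff.1 h1
  exact ⟨v, v', rfl, h2, h3⟩

/-- Some letter of `W` produces all `b`. -/
def Mn (N : ℕ) (s : List (G.Letter → Set (List G.Letter))) (W : List G.Letter) : Prop :=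
  ∃ u M v α σ β, W = u ++ ([M] ++ v) ∧ wd N = α ++ (σ ++ β) ∧ RunT G s u α ∧
    RunT G s [M] σ ∧ RunT G s v β ∧ (1 : Fin 3) ∉ α ∧ (1 : Fin 3) ∉ β

theorem reach_step {W W' : List G.Letter} {h : G.Letter → Set (List G.Letter)}
    (hW : G.Reach W) (hh : h ∈ G.tables) (hs : Subst h W W') : G.Reach W' :=
  Relation.ReflTransGen.tail hW ⟨h, hh, hs⟩

theorem reach_run {W W' : List G.Letter} {s : List (G.Letter → Set (List G.Letter))}
    (hW : G.Reach W) (hh : ∀ h ∈ s, h ∈ G.tables) (hs : Run s W W') : G.Reach W' := by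
  induction s generalizing W with
  | nil =>
    rw [show W' = W from hs]
    exact hW
  | cons g s ih =>
    obtain ⟨z, h1, h2⟩ := hs
    exact ih (reach_step hW (hh g (by simp)) h1) (fun h hs => hh h (by simp [hs])) h2

theorem exists_run {W : List G.Letter} (hW : G.Reach W) :
    ∃ s : List (G.Letter → Set (List G.Letter)), (∀ h ∈ s, h ∈ G.tables) ∧ Run s G.start W := by
  induction hW with
  | refl => exact ⟨[], by simp, rfl⟩
  | tail _ h2 ih =>
    obtain ⟨s, h3, h4⟩ := ih
    obtain ⟨h, hh, hs⟩ := h2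
    refine ⟨s ++ [h], ?_, ?_⟩
    · intro g hg
      rcases List.mem_append.1 hg with hg | hg
      · exact h3 g hg
      · simp only [List.mem_singleton] at hg
        exact hg ▸ hh
    · rw [Run.ctl_append]
      exact ⟨_, h4, _, hs, rfl⟩

/-- Replace the yields of all occurrences of `x`. -/
theorem repl {h : G.Letter → Set (List G.Letter)}
    {s : List (G.Letter → Set (List G.Letter))} {x : G.Letter}
    (hx : ∀ c, c ≠ x → h c = {[c]}) {σ σ' : List (Fin 3)}
    (hσ : ∀ τ, RunT G (h :: s) [x] τ → τ = σ) (hσ' : RunT G s [x] σ') {u : List G.Letter}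
    {α : List (Fin 3)} (hu : RunT G (h :: s) u α) :
    ∃ α', RunT G s u α' ∧
      (∀ k, α'.count k + u.count x * σ.count k = α.count k + u.count x * σ'.count k) ∧
      (x ∈ u → ∀ k, σ'.count k ≤ α'.count k) := by
  induction u generalizing α with
  | nil =>
    have h1 : α = [] := by simpa using Run.nil_iff.1 hu
    subst h1
    exact ⟨[], Run.nil_iff.2 rfl, by simp, by simp⟩
  | cons c u ih =>
    have hu' : RunT G (h :: s) ([c] ++ u) α := hu
    obtain ⟨w, β, rfl, hw, hβ⟩ := hu'.append_inv
    obtain ⟨β', h1, h2, h3⟩ := ih hβ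
    by_cases hc : c = x
    · subst hc
      have := hσ w hw
      subst this
      refine ⟨σ' ++ β', RunT.append hσ' h1, ?_, ?_⟩
      · intro k
        have := h2 k
        simp only [List.count_append, List.count_cons_self]
        nlinarith
      · intro _ k
        simp
    · have hw' : RunT G s [c] w := by
        obtain ⟨z, h4, h5⟩ := hw
        have : z = [c] := by
          refine (Subst.id_iff ?_).1 h4
          intro d hd
          simp only [List.mem_singleton] at hd
          subst hd
          exact hx d hc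
        subst this
        exact h5
      refine ⟨w ++ β', RunT.append hw' h1, ?_, ?_⟩
      · intro k
        have := h2 k
        simp only [List.count_append, List.count_cons_of_ne hc]
        omega
      · intro hxu k
        have hxu' : x ∈ u := by
          rcases List.mem_cons.1 hxu with h | h
          · exact absurd h.symm hc
          · exact h
        have := h3 hxu' k
        simp only [List.count_append]
        omega

/-- Minimal control words. -/
def Min (N : ℕ) (s : List (G.Letter → Set (List G.Letter))) (W : List G.Letter) : Prop :=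
  (∀ h ∈ s, h ∈ G.tables) ∧ RunT G s W (wd N) ∧
    ∀ s' : List (G.Letter → Set (List G.Letter)), (∀ h ∈ s', h ∈ G.tables) →
      RunT G s' W (wd N) → s.length ≤ s'.length

theorem key (hG : G.lang = Set.range wd) {N : ℕ} {h : G.Letter → Set (List G.Letter)}
    {s : List (G.Letter → Set (List G.Letter))} {W : List G.Letter}
    (hok : ∀ g ∈ h :: s, g ∈ G.tables) (hW : G.Reach W) (hr : RunT G (h :: s) W (wd N))
    (hM : ¬ Mn N (h :: s) W) {x : G.Letter} (hx : ∀ c, c ≠ x → h c = {[c]})
    {σ' : List (Fin 3)} (hσ' : RunT G s [x] σ') : RunT G s W (wd N) := by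
  by_cases hxW : x ∈ W
  swap
  · obtain ⟨z, h1, h2⟩ := hr
    have : z = W := by
      refine (Subst.id_iff ?_).1 h1
      intro c hc
      exact hx c (fun h => hxW (h ▸ hc))
    subst this
    exact h2
  obtain ⟨u, v, hW'⟩ := List.append_of_mem hxW
  have hW2 : W = u ++ ([x] ++ v) := by simpa using hW'
  have hr' := hr
  rw [hW2] at hr'
  obtain ⟨α, γ, h1, hα, hγ⟩ := hr'.append_inv
  obtain ⟨σ, β, rfl, hσ, hβ⟩ := hγ.append_inv
  have hlang : ∀ {s' : List (G.Letter → Set (List G.Letter))} {w},
      (∀ g ∈ s', g ∈ G.tables) → RunT G s' W w → ∃ m, wd m = w := by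
    intro s' w h2 h3
    have : w ∈ G.lang := reach_run hW h2 h3
    rw [hG] at this
    exact this
  have huniq : ∀ τ, RunT G (h :: s) [x] τ → τ = σ := by
    intro τ hτ
    have h2 : RunT G (h :: s) W (α ++ (τ ++ β)) := by
      rw [hW2]
      exact hα.append (hτ.append hβ)
    obtain ⟨m, hm⟩ := hlang hok h2
    symm
    refine wd_unique h1 hm ?_
    by_contra hc
    rw [not_or] at hc
    exact hM ⟨u, x, v, α, σ, β, hW2, h1, hα, hσ, hβ, hc.1, hc.2⟩
  obtain ⟨α', ha1, ha2, ha3⟩ := repl hx huniq hσ' hα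
  obtain ⟨β', hb1, hb2, hb3⟩ := repl hx huniq hσ' hβ
  have h2 : RunT G s W (α' ++ (σ' ++ β')) := by
    rw [hW2]
    exact ha1.append (hσ'.append hb1)
  obtain ⟨m, hm⟩ := hlang (fun g hg => hok g (by simp [hg])) h2
  set r := u.count x + v.count x + 1 with hr0
  have hcnt : ∀ k, m + r * σ.count k = N + r * σ'.count k := by
    intro k
    have e1 := count_wd m k
    have e2 := count_wd N k
    rw [hm, List.count_append, List.count_append] at e1
    rw [h1, List.count_append, List.count_append] at e2
    have e3 := ha2 k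
    have e4 := hb2 k
    rw [hr0]
    nlinarith
  have hrpos : 0 < r := by omega
  rcases lt_trichotomy m N with hmN | hmN | hmN
  · exfalso
    have hpos : ∀ k, 0 < σ.count k := by
      intro k
      have := hcnt k
      by_contra h0
      have h0' : σ.count k = 0 := by omega
      rw [h0'] at this
      omega
    obtain ⟨h3, h4⟩ := wd_factor h1 (hpos 0) (hpos 2)
    exact hM ⟨u, x, v, α, σ, β, hW2, h1, hα, hσ, hβ, h3, h4⟩
  · rw [← hmN, hm]
    exact h2
  · exfalso
    have hpos : ∀ k, 0 < σ'.count k := by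
      intro k
      have := hcnt k
      by_contra h0
      have h0' : σ'.count k = 0 := by omega
      rw [h0'] at this
      omega
    obtain ⟨h3, h4⟩ := wd_factor hm (hpos 0) (hpos 2)
    have h3' : α'.count 1 = 0 := List.count_eq_zero.2 h3
    have h4' : β'.count 1 = 0 := List.count_eq_zero.2 h4
    have hxu : x ∉ u := by
      intro hxu
      have := ha3 hxu 1
      have := hpos 1
      omega
    have hxv : x ∉ v := by
      intro hxv
      have := hb3 hxv 1
      have := hpos 1
      omega
    have e1 := ha2 1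
    have e2 := hb2 1
    rw [List.count_eq_zero.2 hxu] at e1
    rw [List.count_eq_zero.2 hxv] at e2
    refine hM ⟨u, x, v, α, σ, β, hW2, h1, hα, hσ, hβ, ?_, ?_⟩
    · rw [← List.count_eq_zero]; omega
    · rw [← List.count_eq_zero]; omega

theorem Subst.split_inv {S : Type} {h : S → Set (List S)} {W u v : List S} {M : S}
    (hs : Subst h W (u ++ ([M] ++ v))) :
    ∃ u0 M0 v0 u1 ρ1 ρ2 v1, W = u0 ++ ([M0] ++ v0) ∧ Subst h u0 u1 ∧
      ρ1 ++ ([M] ++ ρ2) ∈ h M0 ∧ Subst h v0 v1 ∧ u = u1 ++ ρ1 ∧ v = ρ2 ++ v1 := by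
  induction W generalizing u with
  | nil =>
    rw [Subst.nil_iff] at hs
    simp at hs
  | cons c W ih =>
    rw [Subst.cons_iff] at hs
    obtain ⟨w, y, hw, hy, he⟩ := hs
    rcases List.append_eq_append_iff.1 he with ⟨a, h1, h2⟩ | ⟨a, h1, h2⟩
    · -- w = u ++ a, [M] ++ v = a ++ y
      cases a with
      | nil =>
        simp only [List.append_nil] at h1
        simp only [List.nil_append] at h2
        subst h1
        rw [← h2] at hy
        obtain ⟨u0, M0, v0, u1, ρ1, ρ2, v1, rfl, h3, h4, h5, h6, h7⟩ := ih (u := []) hy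
        refine ⟨c :: u0, M0, v0, w ++ u1, ρ1, ρ2, v1, by simp, ?_, h4, h5, ?_, h7⟩
        · rw [Subst.cons_iff]
          exact ⟨w, u1, hw, h3, rfl⟩
        · rw [List.append_assoc, ← h6, List.append_nil]
      | cons b a =>
        simp only [List.cons_append, List.nil_append, List.cons.injEq] at h2
        obtain ⟨rfl, h2⟩ := h2
        subst h1
        refine ⟨[], c, W, [], u, a, y, rfl, Subst.nil_iff.2 rfl, ?_, hy, rfl, h2⟩
        simpa using hw
    · -- u = w ++ a, y = a ++ ([M] ++ v)
      subst h1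
      rw [h2] at hy
      obtain ⟨u0, M0, v0, u1, ρ1, ρ2, v1, rfl, h3, h4, h5, rfl, h7⟩ := ih hy
      refine ⟨c :: u0, M0, v0, w ++ u1, ρ1, ρ2, v1, by simp, ?_, h4, h5, by simp, h7⟩
      rw [Subst.cons_iff]
      exact ⟨w, u1, hw, h3, rfl⟩

theorem Mn_step {N : ℕ} {h : G.Letter → Set (List G.Letter)}
    {s : List (G.Letter → Set (List G.Letter))} {W W1 : List G.Letter}
    (hs : Subst h W W1) (hM : Mn N s W1) : Mn N (h :: s) W := by
  obtain ⟨u, M, v, α, σ, β, rfl, h1, hα, hσ, hβ, h2, h3⟩ := hM
  obtain ⟨u0, M0, v0, u1, ρ1, ρ2, v1, rfl, h4, h5, h6, rfl, rfl⟩ := Subst.split_inv hs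
  obtain ⟨α1, α2, rfl, hα1, hα2⟩ := hα.append_inv
  obtain ⟨β1, β2, rfl, hβ1, hβ2⟩ := hβ.append_inv
  refine ⟨u0, M0, v0, α1, α2 ++ (σ ++ β1), β2, rfl, by rw [h1]; simp, ⟨u1, h4, hα1⟩,
    ⟨ρ1 ++ ([M] ++ ρ2), ?_, hα2.append (hσ.append hβ1)⟩, ⟨v1, h6, hβ2⟩, ?_, ?_⟩
  · rw [Subst.cons_iff]
    exact ⟨_, [], h5, Subst.nil_iff.2 rfl, by simp⟩
  · exact fun h => h2 (by simp [h])
  · exact fun h => h3 (by simp [h])

theorem Min.tail {N : ℕ} {h : G.Letter → Set (List G.Letter)}
    {s : List (G.Letter → Set (List G.Letter))} {W W1 : List G.Letter}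
    (hm : Min N (h :: s) W) (hs : Subst h W W1) (hr : RunT G s W1 (wd N)) : Min N s W1 := by
  refine ⟨fun g hg => hm.1 g (by simp [hg]), hr, ?_⟩
  intro s' hs' hr'
  have := hm.2.2 (h :: s') ?_ ⟨W1, hs, hr'⟩
  · simpa using this
  · intro g hg
    rcases List.mem_cons.1 hg with rfl | hg
    · exact hm.1 g (by simp)
    · exact hs' g hg

theorem active (h1 : G.Restricted 1) {h : G.Letter → Set (List G.Letter)}
    (hh : h ∈ G.tables) (hne : ∃ x, h x ≠ {[x]}) :
    ∃ x, h x ≠ {[x]} ∧ ∀ c, c ≠ x → h c = {[c]} := by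
  have := G.letter_finite
  obtain ⟨x, hx⟩ := hne
  refine ⟨x, hx, ?_⟩
  intro c hc
  by_contra hcc
  have h2 := h1 h hh
  rw [Set.ncard_le_one (Set.toFinite _)] at h2
  exact hc (h2 c hcc x hx)

theorem short (h1 : G.Restricted 1) (hG : G.lang = Set.range wd) {N : ℕ}
    {s : List (G.Letter → Set (List G.Letter))} {W : List G.Letter} (hW : G.Reach W)
    (hm : Min N s W) (hM : ¬ Mn N s W) :
    ∃ l : List G.Letter, l.Nodup ∧ l.length = s.length ∧
      ∀ c, c ∈ l ↔ ∃ h ∈ s, h c ≠ {[c]} := by
  induction s generalizing W with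
  | nil => exact ⟨[], by simp, rfl, by simp⟩
  | cons h s ih =>
    have hh : h ∈ G.tables := hm.1 h (by simp)
    obtain ⟨W1, hs, hr⟩ := hm.2.1
    have hm1 := hm.tail hs hr
    have hM1 : ¬ Mn N s W1 := fun h => hM (Mn_step hs h)
    have hne : ∃ x, h x ≠ {[x]} := by
      by_contra hne
      push Not at hne
      have : W1 = W := (Subst.id_iff (fun c _ => hne c)).1 hs
      subst this
      have := hm.2.2 s hm1.1 hr
      simp at this
    obtain ⟨x, hx, hx'⟩ := active h1 hh hne
    obtain ⟨l, hl1, hl2, hl3⟩ := ih (reach_step hW hh hs) hm1 hM1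
    have hxl : x ∉ l := by
      intro hxl
      obtain ⟨g, hg, hgx⟩ := (hl3 x).1 hxl
      -- the first table of `s` that touches `x`
      obtain ⟨s1, g', s2, hs12, hg', hs1⟩ : ∃ s1 g' s2, s = s1 ++ g' :: s2 ∧ g' x ≠ {[x]} ∧
          ∀ f ∈ s1, f x = {[x]} := by
        clear ih hm hM hm1 hM1 hr hl2 hl3
        induction s with
        | nil => simp at hg
        | cons f s ihs =>
          by_cases hf : f x = {[x]}
          · have hg2 : g ∈ s := by
              rcases List.mem_cons.1 hg with rfl | hg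
              · exact absurd hf hgx
              · exact hg
            obtain ⟨s1, g', s2, rfl, h2, h3⟩ := ihs hg2
            refine ⟨f :: s1, g', s2, rfl, h2, ?_⟩
            intro f' hf'
            rcases List.mem_cons.1 hf' with rfl | hf'
            · exact hf
            · exact h3 f' hf'
          · exact ⟨[], f, s, rfl, hf, by simp⟩
      subst hs12
      have hg't : g' ∈ G.tables := hm1.1 g' (by simp)
      obtain ⟨x', hx2, hx3⟩ := active h1 hg't ⟨x, hg'⟩
      have hxx : x' = x := by
        by_contra hne'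
        exact hg' (hx3 x (fun h => hne' h.symm))
      subst hxx
      obtain ⟨W2, hr1, W3, hr2, hr3⟩ := Run.ctl_append.1 hr
      by_cases hxW2 : x' ∈ W2
      · obtain ⟨p, q, hpq⟩ := List.append_of_mem hxW2
        have hW2 : W2 = p ++ ([x'] ++ q) := by simpa using hpq
        have hr4 : RunT G (g' :: s2) W2 (wd N) := ⟨W3, hr2, hr3⟩
        rw [hW2] at hr4
        obtain ⟨α, γ, -, -, hγ⟩ := hr4.append_inv
        obtain ⟨σ', β, -, hσ', -⟩ := hγ.append_inv
        have hσ2 : RunT G (s1 ++ g' :: s2) [x'] σ' := by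
          refine Run.ctl_append.2 ⟨[x'], Run.fixed ?_, hσ'⟩
          intro f hf c hc
          simp only [List.mem_singleton] at hc
          subst hc
          exact hs1 f hf
        have h5 := key hG hm.1 hW hm.2.1 hM hx' hσ2
        have := hm.2.2 _ hm1.1 h5
        simp at this
      · have hW3 : W3 = W2 := by
          refine (Subst.id_iff ?_).1 hr2
          intro c hc
          exact hx3 c (fun h => hxW2 (h ▸ hc))
        subst hW3
        have h6 : RunT G (h :: (s1 ++ s2)) W (wd N) :=
          ⟨W1, hs, Run.ctl_append.2 ⟨W3, hr1, hr3⟩⟩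
        have := hm.2.2 _ ?_ h6
        · simp at this
        · intro f hf
          apply hm.1
          simp only [List.mem_cons, List.mem_append] at hf ⊢
          tauto
    refine ⟨x :: l, List.nodup_cons.2 ⟨hxl, hl1⟩, by simp [hl2], ?_⟩
    intro c
    rw [List.mem_cons, hl3]
    constructor
    · rintro (rfl | ⟨g, hg, hgc⟩)
      · exact ⟨h, by simp, hx⟩
      · exact ⟨g, by simp [hg], hgc⟩
    · rintro ⟨g, hg, hgc⟩
      rcases List.mem_cons.1 hg with rfl | hg
      · left
        by_contra hc
        exact hgc (hx' c hc)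
      · exact Or.inr ⟨g, hg, hgc⟩

theorem short' (h1 : G.Restricted 1) (hG : G.lang = Set.range wd) {N : ℕ}
    {s : List (G.Letter → Set (List G.Letter))} {W : List G.Letter} (hW : G.Reach W)
    (hm : Min N s W) (hM : ¬ Mn N s W) : s.length ≤ Nat.card G.Letter := by
  obtain ⟨l, hl1, hl2, -⟩ := short h1 hG hW hm hM
  have := G.letter_finite
  have := Fintype.ofFinite G.Letter
  rw [← hl2, Nat.card_eq_fintype_card]
  exact hl1.length_le_card

theorem bound (h1 : G.Restricted 1) (hG : G.lang = Set.range wd) {N K : ℕ} (hK0 : 1 ≤ K)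
    (hK : ∀ h ∈ G.tables, ∀ c, ∀ w ∈ h c, w.length ≤ K)
    {s : List (G.Letter → Set (List G.Letter))} {W : List G.Letter} (hW : G.Reach W)
    (hm : Min N s W) (hM : Mn N s W) : N ≤ K ^ (Nat.card G.Letter + 1) := by
  induction s generalizing W with
  | nil =>
    obtain ⟨u, M, v, α, σ, β, hW', h2, hα, hσ, hβ, h3, h4⟩ := hM
    have h5 : σ.length = 1 := by
      have : σ.map G.terminal = [M] := hσ
      have := congrArg List.length this
      simpa using this
    have h6 := count_wd N 1
    rw [h2, List.count_append, List.count_append, List.count_eq_zero.2 h3,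
      List.count_eq_zero.2 h4] at h6
    have h7 : σ.count 1 ≤ σ.length := List.count_le_length
    have h8 : 1 ≤ K ^ (Nat.card G.Letter + 1) := Nat.one_le_pow _ _ hK0
    omega
  | cons h s ih =>
    obtain ⟨u, M, v, α, σ, β, hW', h2, ⟨u1, hu1, hα⟩, ⟨ρ, hρ, hσ⟩, ⟨v1, hv1, hβ⟩, h3, h4⟩ := hM
    have hs : Subst h W (u1 ++ (ρ ++ v1)) := by
      rw [hW']
      exact hu1.append (hρ.append hv1)
    have hr : RunT G s (u1 ++ (ρ ++ v1)) (wd N) := by
      rw [h2]
      exact RunT.append hα (RunT.append hσ hβ)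
    have hm1 := hm.tail hs hr
    have hW1 := reach_step hW (hm.1 h (by simp)) hs
    by_cases hM1 : Mn N s (u1 ++ (ρ ++ v1))
    · exact ih hW1 hm1 hM1
    · have h5 := short' h1 hG hW1 hm1 hM1
      have h6 := count_wd N 1
      rw [h2, List.count_append, List.count_append, List.count_eq_zero.2 h3,
        List.count_eq_zero.2 h4] at h6
      have h7 : σ.count 1 ≤ σ.length := List.count_le_length
      have h8 : ρ.length ≤ K := by
        rw [Subst.cons_iff] at hρ
        obtain ⟨w, y, hw, hy, rfl⟩ := hρ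
        rw [Subst.nil_iff] at hy
        subst hy
        simpa using hK h (hm.1 h (by simp)) M w hw
      have h9 := Run.length_le (K := K) (fun g hg => hK g (hm1.1 g hg)) hσ
      rw [List.length_map] at h9
      have h10 : ρ.length * K ^ s.length ≤ K * K ^ Nat.card G.Letter :=
        Nat.mul_le_mul h8 (Nat.pow_le_pow_right hK0 h5)
      rw [pow_succ]
      nlinarith

/-- `{aⁿbⁿcⁿ}` is not generated by a 1-restricted ET0L system. -/
theorem not_one (h1 : G.Restricted 1) : G.lang ≠ Set.range wd := by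
  intro hG
  have hfin := G.letter_finite
  -- a bound for the lengths of replacement words
  obtain ⟨K, hK0, hK⟩ : ∃ K, 1 ≤ K ∧ ∀ h ∈ G.tables, ∀ c, ∀ w ∈ h c, w.length ≤ K := by
    have hF : (⋃ h ∈ G.tables, ⋃ c, h c).Finite := by
      refine Set.Finite.biUnion G.tables_finite ?_
      intro h hh
      exact Set.finite_iUnion (fun c => G.image_finite h hh c)
    obtain ⟨K, hK⟩ := (hF.image List.length).bddAbove
    refine ⟨max K 1, le_max_right _ _, ?_⟩
    intro h hh c w hw
    refine le_trans (hK ⟨w, ?_, rfl⟩) (le_max_left _ _)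
    simp only [Set.mem_iUnion]
    exact ⟨h, hh, c, hw⟩
  set n := Nat.card G.Letter with hn
  set N := K ^ (n + 1) + G.start.length * K ^ n + 1 with hN
  have hmem : wd N ∈ G.lang := by
    rw [hG]
    exact ⟨N, rfl⟩
  obtain ⟨s0, hs0, hr0⟩ := exists_run (G := G) (W := (wd N).map G.terminal) hmem
  -- a minimal control word
  have hex : ∃ k, ∃ s : List (G.Letter → Set (List G.Letter)), s.length = k ∧
      (∀ h ∈ s, h ∈ G.tables) ∧ RunT G s G.start (wd N) := ⟨_, s0, rfl, hs0, hr0⟩
  obtain ⟨s, hs1, hs2, hs3⟩ := Nat.find_spec hex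
  have hm : Min N s G.start := by
    refine ⟨hs2, hs3, ?_⟩
    intro s' h2 h3
    rw [hs1]
    exact Nat.find_min' hex ⟨s', rfl, h2, h3⟩
  have hW : G.Reach G.start := Relation.ReflTransGen.refl
  by_cases hM : Mn N s G.start
  · have := bound h1 hG hK0 hK hW hm hM
    rw [← hn] at this
    omega
  · have h5 := short' h1 hG hW hm hM
    have h9 := Run.length_le (K := K) (fun g hg => hK g (hm.1 g hg)) hm.2.1
    rw [List.length_map, length_wd] at h9
    have h10 : G.start.length * K ^ s.length ≤ G.start.length * K ^ n :=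
      Nat.mul_le_mul_left _ (Nat.pow_le_pow_right hK0 h5)
    omega

end One

/-! ### An ET0L system for `{aⁿbⁿcⁿ}` -/

namespace Abc

/-- The table adding one terminal letter in front of every variable. -/
def grow : Fin 3 ⊕ Fin 3 → Set (List (Fin 3 ⊕ Fin 3))
  | .inl i => {[.inl i]}
  | .inr i => {[.inl i, .inr i]}

/-- The table erasing the variables. -/
def stop : Fin 3 ⊕ Fin 3 → Set (List (Fin 3 ⊕ Fin 3))
  | .inl i => {[.inl i]}
  | .inr _ => {[]}

/-- The system. -/
def sys : ET0L (Fin 3) where
  Letter := Fin 3 ⊕ Fin 3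
  letter_finite := inferInstance
  tables := {grow, stop}
  tables_finite := Set.toFinite _
  tables_nonempty := ⟨grow, Or.inl rfl⟩
  image_finite := by
    rintro h (rfl | rfl) (c | c) <;> exact Set.finite_singleton _
  image_nonempty := by
    rintro h (rfl | rfl) (c | c) <;> exact Set.singleton_nonempty _
  start := [.inr 0, .inr 1, .inr 2]
  start_ne := by simp
  terminal := ⟨Sum.inl, Sum.inl_injective⟩

/-- The sentential forms. -/
def form (n : ℕ) : List (Fin 3 ⊕ Fin 3) :=
  (List.replicate n (.inl 0) ++ [.inr 0]) ++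
    ((List.replicate n (.inl 1) ++ [.inr 1]) ++ (List.replicate n (.inl 2) ++ [.inr 2]))

theorem det_iff {S : Type} {h : S → Set (List S)} {f : S → List S} {x y : List S}
    (hf : ∀ c ∈ x, h c = {f c}) : Subst h x y ↔ y = x.flatMap f := by
  induction x generalizing y with
  | nil => simp [Subst.nil_iff]
  | cons c x ih =>
    rw [Subst.cons_iff]
    have h1 := hf c (by simp)
    have h2 : ∀ d ∈ x, h d = {f d} := fun d hd => hf d (by simp [hd])
    constructor
    · rintro ⟨w, y1, hw, hy, rfl⟩
      rw [h1] at hw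
      rw [ih h2] at hy
      subst hy
      simp only [Set.mem_singleton_iff] at hw
      subst hw
      simp
    · intro hy
      subst hy
      exact ⟨f c, x.flatMap f, by simp [h1], (ih h2).2 rfl, by simp⟩

/-- The table `grow` as a function. -/
def growf : Fin 3 ⊕ Fin 3 → List (Fin 3 ⊕ Fin 3)
  | .inl i => [.inl i]
  | .inr i => [.inl i, .inr i]

/-- The table `stop` as a function. -/
def stopf : Fin 3 ⊕ Fin 3 → List (Fin 3 ⊕ Fin 3)
  | .inl i => [.inl i]
  | .inr _ => []

theorem flatMap_replicate_inl (f : Fin 3 ⊕ Fin 3 → List (Fin 3 ⊕ Fin 3))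
    (hf : ∀ i, f (.inl i) = [.inl i]) (n : ℕ) (i : Fin 3) :
    (List.replicate n (Sum.inl i)).flatMap f = List.replicate n (.inl i) := by
  induction n with
  | zero => rfl
  | succ n ih => rw [List.replicate_succ, List.flatMap_cons, ih, hf]; rfl

theorem grow_form (n : ℕ) : (form n).flatMap growf = form (n + 1) := by
  simp only [form, List.flatMap_append, flatMap_replicate_inl growf (fun _ => rfl)]
  simp only [List.flatMap_cons, List.flatMap_nil, growf, List.replicate_succ']
  simp

theorem stop_form (n : ℕ) : (form n).flatMap stopf = (wd n).map .inl := by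
  simp only [form, List.flatMap_append, flatMap_replicate_inl stopf (fun _ => rfl)]
  simp [stopf, wd]

theorem step_iff (x y : List (Fin 3 ⊕ Fin 3)) :
    sys.Step x y ↔ y = x.flatMap growf ∨ y = x.flatMap stopf := by
  have h1 : ∀ y, Subst grow x y ↔ y = x.flatMap growf :=
    fun y => det_iff (fun c _ => by cases c <;> rfl)
  have h2 : ∀ y, Subst stop x y ↔ y = x.flatMap stopf :=
    fun y => det_iff (fun c _ => by cases c <;> rfl)
  constructor
  · rintro ⟨h, (rfl | rfl), hs⟩
    · exact Or.inl ((h1 y).1 hs)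
    · exact Or.inr ((h2 y).1 hs)
  · rintro (hs | hs)
    · exact ⟨grow, Or.inl rfl, (h1 y).2 hs⟩
    · exact ⟨stop, Or.inr rfl, (h2 y).2 hs⟩

theorem inv {x : List (Fin 3 ⊕ Fin 3)} (h : sys.Reach x) :
    ∃ n, x = form n ∨ x = (wd n).map .inl := by
  induction h with
  | refl => exact ⟨0, Or.inl rfl⟩
  | tail _ h2 ih =>
    obtain ⟨n, ih⟩ := ih
    have hid : ∀ f : Fin 3 ⊕ Fin 3 → List (Fin 3 ⊕ Fin 3), (∀ i, f (.inl i) = [.inl i]) →
        ∀ u : List (Fin 3), (u.map Sum.inl).flatMap f = u.map .inl := by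
      intro f hf u
      induction u with
      | nil => rfl
      | cons a u ihu => rw [List.map_cons, List.flatMap_cons, ihu, hf]; rfl
    rcases (step_iff _ _).1 h2 with rfl | rfl
    · rcases ih with rfl | rfl
      · exact ⟨n + 1, Or.inl (grow_form n)⟩
      · exact ⟨n, Or.inr (hid _ (fun _ => rfl) _)⟩
    · rcases ih with rfl | rfl
      · exact ⟨n, Or.inr (stop_form n)⟩
      · exact ⟨n, Or.inr (hid _ (fun _ => rfl) _)⟩

theorem reach_form (n : ℕ) : sys.Reach (form n) := by
  induction n with
  | zero => exact .refl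
  | succ n ih => exact ih.tail ((step_iff _ _).2 (Or.inl (grow_form n).symm))

theorem lang_sys : sys.lang = Set.range wd := by
  ext w
  constructor
  · intro hw
    obtain ⟨n, h | h⟩ := inv hw
    · exfalso
      have : (Sum.inr 0 : Fin 3 ⊕ Fin 3) ∈ w.map Sum.inl := by
        have h' : w.map Sum.inl = form n := h
        rw [h']
        simp [form]
      simp at this
    · refine ⟨n, ?_⟩
      have h' : w.map Sum.inl = (wd n).map Sum.inl := h
      exact (List.map_injective_iff.2 Sum.inl_injective h').symm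
  · rintro ⟨n, rfl⟩
    exact (reach_form n).tail ((step_iff _ _).2 (Or.inr (stop_form n).symm))

end Abc

theorem fam_mono' {T : Type} {k k' : ℕ} (h : k ≤ k') : Fam T k ⊆ Fam T k' := by
  rintro L ⟨G, hG, rfl⟩
  exact ⟨G, fun t ht => (hG t ht).trans h, rfl⟩

theorem fam_eq_two {T : Type} {k : ℕ} (h : 2 ≤ k) : Fam T k = Fam T 2 := by
  apply Set.Subset.antisymm _ (fam_mono' h)
  rintro L ⟨G, -, rfl⟩
  exact exists_restricted_two G

theorem fam_one_ne : Fam (Fin 3) 1 ≠ Fam (Fin 3) 2 := by
  intro h
  have h2 : Set.range wd ∈ Fam (Fin 3) 2 := by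
    obtain ⟨G', hG', h3⟩ := exists_restricted_two Abc.sys
    exact ⟨G', hG', h3.trans Abc.lang_sys⟩
  rw [← h] at h2
  obtain ⟨G, hG, h3⟩ := h2
  exact not_one hG h3

end Pool.Agent.P4de4a9
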