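import Pool.Agent.Lib.P4de4a9.Defs

namespace Pool.Agent.P4de4a9

namespace Subst

variable {A B C : Type}

theorem nil_iff {h : A → Set (List B)} {y : List B} : Subst h [] y ↔ y = [] := by
  constructor
  · rintro ⟨ws, h1, rfl⟩
    cases h1
    rfl
  · rintro rfl
    exact ⟨[], .nil, rfl⟩

theorem cons_iff {h : A → Set (List B)} {c : A} {x : List A} {z : List B} :
    Subst h (c :: x) z ↔ ∃ w y, w ∈ h c ∧ Subst h x y ∧ z = w ++ y := by
  constructor
  · rintro ⟨ws, h1, rfl⟩
    cases h1 with
    | cons h2 h3 => exact ⟨_, _, h2, ⟨_, h3, rfl⟩, by simp⟩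
  · rintro ⟨w, y, hw, ⟨ws, h1, rfl⟩, rfl⟩
    exact ⟨w :: ws, .cons hw h1, by simp⟩

theorem append {h : A → Set (List B)} {x x' : List A} {y y' : List B}
    (h1 : Subst h x y) (h2 : Subst h x' y') : Subst h (x ++ x') (y ++ y') := by
  induction x generalizing y with
  | nil =>
    rw [nil_iff] at h1
    subst h1
    simpa using h2
  | cons c x ih =>
    rw [cons_iff] at h1
    obtain ⟨w, y1, hw, hy, rfl⟩ := h1
    rw [List.cons_append, cons_iff]
    exact ⟨w, y1 ++ y', hw, ih hy, by simp⟩

theorem append_inv {h : A → Set (List B)} {x x' : List A} {z : List B}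
    (H : Subst h (x ++ x') z) : ∃ y y', z = y ++ y' ∧ Subst h x y ∧ Subst h x' y' := by
  induction x generalizing z with
  | nil => exact ⟨[], z, rfl, nil_iff.2 rfl, H⟩
  | cons c x ih =>
    rw [List.cons_append, cons_iff] at H
    obtain ⟨w, y, hw, hy, rfl⟩ := H
    obtain ⟨y1, y2, rfl, h1, h2⟩ := ih hy
    exact ⟨w ++ y1, y2, by simp, cons_iff.2 ⟨w, y1, hw, h1, rfl⟩, h2⟩

theorem map_iff {h : A → Set (List B)} {x : List A} {y : List B} (f : A → B)
    (hf : ∀ c ∈ x, h c = {[f c]}) : Subst h x y ↔ y = x.map f := by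
  induction x generalizing y with
  | nil => simp [nil_iff]
  | cons c x ih =>
    rw [cons_iff]
    have h1 := hf c (by simp)
    have h2 : ∀ d ∈ x, h d = {[f d]} := fun d hd => hf d (by simp [hd])
    constructor
    · rintro ⟨w, y1, hw, hy, rfl⟩
      rw [h1] at hw
      rw [ih h2] at hy
      subst hy
      simp only [Set.mem_singleton_iff] at hw
      subst hw
      simp
    · intro hy
      subst hy
      exact ⟨[f c], x.map f, by simp [h1], (ih h2).2 rfl, by simp⟩

theorem id_iff {h : A → Set (List A)} {x y : List A}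
    (hf : ∀ c ∈ x, h c = {[c]}) : Subst h x y ↔ y = x := by
  have := map_iff (h := h) (x := x) (y := y) id (by simpa using hf)
  simpa using this

theorem map_of {h : A → Set (List B)} {x : List A} (f : A → B)
    (hf : ∀ c ∈ x, [f c] ∈ h c) : Subst h x (x.map f) := by
  induction x with
  | nil => simp [nil_iff]
  | cons c x ih =>
    rw [cons_iff]
    exact ⟨[f c], x.map f, hf c (by simp), ih (fun d hd => hf d (by simp [hd])), by simp⟩

theorem flatMap_of {D : Type} {h : A → Set (List B)} (l : List D) (f : D → List A)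
    (g : D → List B) (H : ∀ p ∈ l, Subst h (f p) (g p)) :
    Subst h (l.flatMap f) (l.flatMap g) := by
  induction l with
  | nil => simp [nil_iff]
  | cons p l ih =>
    simp only [List.flatMap_cons]
    exact append (H p (by simp)) (ih (fun q hq => H q (by simp [hq])))

theorem mem_of {h : A → Set (List B)} {x : List A} {y : List B} {c : A} {d : B}
    (hc : c ∈ x) (hd : ∀ w ∈ h c, d ∈ w) (H : Subst h x y) : d ∈ y := by
  induction x generalizing y with
  | nil => simp at hc
  | cons c' x ih =>
    rw [cons_iff] at H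
    obtain ⟨w, y1, hw, hy, rfl⟩ := H
    rcases List.mem_cons.1 hc with rfl | hc
    · simp [hd w hw]
    · simp [ih hc hy]

theorem mem_inv {h : A → Set (List B)} {x : List A} {y : List B} {d : B}
    (hd : d ∈ y) (H : Subst h x y) : ∃ c ∈ x, ∃ w ∈ h c, d ∈ w := by
  induction x generalizing y with
  | nil =>
    rw [nil_iff] at H
    simp [H] at hd
  | cons c' x ih =>
    rw [cons_iff] at H
    obtain ⟨w, y1, hw, hy, rfl⟩ := H
    rcases List.mem_append.1 hd with hd | hd
    · exact ⟨c', by simp, w, hw, hd⟩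
    · obtain ⟨c, hc, w', hw', hdw⟩ := ih hd hy
      exact ⟨c, by simp [hc], w', hw', hdw⟩

/-- Composition of a substitution with another one absorbed into it. -/
theorem comp {g : A → Set (List B)} {f : B → Set (List C)} {g'' : A → Set (List C)}
    {w : List A} {x : List B} {x' : List C}
    (h1 : Subst g w x) (h2 : Subst f x x')
    (H : ∀ c ∈ w, ∀ b ∈ g c, ∀ b', Subst f b b' → b' ∈ g'' c) : Subst g'' w x' := by
  induction w generalizing x x' with
  | nil =>
    rw [nil_iff] at h1
    subst h1
    rw [nil_iff] at h2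
    subst h2
    exact nil_iff.2 rfl
  | cons c w ih =>
    rw [cons_iff] at h1
    obtain ⟨b, y, hb, hy, rfl⟩ := h1
    obtain ⟨b', y', rfl, hb', hy'⟩ := append_inv h2
    rw [cons_iff]
    exact ⟨b', y', H c (by simp) b hb b' hb',
      ih hy hy' (fun d hd => H d (by simp [hd])), rfl⟩

theorem mono {g g' : A → Set (List B)} {w : List A} {x : List B}
    (h1 : Subst g w x) (H : ∀ c ∈ w, ∀ b ∈ g c, (∀ d ∈ b, d ∈ x) → b ∈ g' c) :
    Subst g' w x := by
  induction w generalizing x with
  | nil =>
    rw [nil_iff] at h1 ⊢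
    exact h1
  | cons c w ih =>
    rw [cons_iff] at h1
    obtain ⟨b, y, hb, hy, rfl⟩ := h1
    rw [cons_iff]
    refine ⟨b, y, H c (by simp) b hb (fun d hd => by simp [hd]), ih hy ?_, rfl⟩
    intro d hd b' hb' hb''
    exact H d (by simp [hd]) b' hb' (fun e he => by simp [hb'' e he])

end Subst

end Pool.Agent.P4de4a9
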